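import Pool.Agent.H69.VS.Red

/-!
The numerical recursion, first form.
-/

set_option linter.unusedSectionVars false

namespace Pool.Agent.H69.VS

/-- the sum of `i / (D - 1)` over `i < j` -/
def Ng (D : ℕ) : ℕ → ℕ
  | 0 => 0
  | j + 1 => Ng D j + j / (D - 1)

theorem Van_Ng {σ : Type} [Fintype σ] [DecidableEq σ] (D : ℕ) : ∀ (j t : ℕ), t < Ng D j →
    ∀ β : σ → ℕ, dg β = t * D + j → Van D t β := by
  intro j
  induction j with
  | zero => intro t ht; exact absurd ht (Nat.not_lt_zero _)
  | succ j ih =>
    intro t
    induction t using Nat.strong_induction_on with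
    | _ t iht =>
      intro ht
      have hN : Ng D (j + 1) = Ng D j + j / (D - 1) := rfl
      have h2 := Nat.div_mul_le_self j (D - 1)
      generalize j / (D - 1) = m at hN h2
      rw [hN] at ht iht
      apply Van_rows (m := m)
      · intro r β hr hβ
        exact ih r (by omega) β (by omega)
      · intro r β hr hβ
        exact iht r (by omega) (by omega) β hβ
      · intro β hc hβ
        apply Van_small _ hβ
        have h1 : (supp β).card * (D - 1) ≤ m * (D - 1) := Nat.mul_le_mul_right _ hc
        omega

theorem Ng_closed (E k : ℕ) : ∀ r ≤ E, 2 * Ng (E + 1) (k * E + r) + E * k = E * k * k + 2 * k * r := by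
  induction k with
  | zero =>
    intro r hr
    induction r with
    | zero => simp [Ng]
    | succ r ihr =>
      have h1 := ihr (by omega)
      have h2 : 0 * E + (r + 1) = (0 * E + r) + 1 := by ring
      rw [h2]
      simp only [Ng, Nat.add_sub_cancel]
      have h3 : (0 * E + r) / E = 0 := by
        rw [Nat.zero_mul, Nat.zero_add]; exact Nat.div_eq_of_lt (by omega)
      rw [h3]
      simp only [Nat.zero_mul, Nat.mul_zero, Nat.zero_add, Nat.add_zero] at h1 ⊢
      exact h1
  | succ k ihk =>
    intro r hr
    induction r with
    | zero =>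
      have h1 := ihk E le_rfl
      have h2 : (k + 1) * E + 0 = k * E + E := by ring
      rw [h2]
      nlinarith
    | succ r ihr =>
      have h1 := ihr (by omega)
      have h2 : (k + 1) * E + (r + 1) = ((k + 1) * E + r) + 1 := by ring
      rw [h2]
      simp only [Ng, Nat.add_sub_cancel]
      have h3 : ((k + 1) * E + r) / E = k + 1 := by
        rw [Nat.mul_comm, Nat.mul_add_div (by omega)]
        rw [Nat.div_eq_of_lt (by omega)]
      rw [h3]
      nlinarith

end Pool.Agent.H69.VS
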