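import Pool.Agent.H86.VS.Strand
import Pool.Agent.H69.VS.Num

/-!
The numerical recursion, second form (with the top strand of `P^k`).
-/

set_option linter.unusedSectionVars false

namespace Pool.Agent.H69.VS

variable {σ : Type} [Fintype σ] [DecidableEq σ]

/-- one step of the recursion -/
theorem step {D k j M M' : ℕ} (hD : 1 ≤ D) (h1 : k * (D - 1) < j + 1)
    (h2 : j + 1 ≤ (k + 1) * (D - 1))
    (hM : ∀ t, t < M → ∀ β : σ → ℕ, dg β = t * D + j → Van D t β)
    (hf : M' + k + Nat.choose ((k + 1) * D - 1 - (j + 1)) k ≤ Nat.choose (D + k) k)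
    (hs : ∀ t, M + (k + 1) ≤ t → t < M' → ∀ β : σ → ℕ, dg β = t * D + (j + 1) → Van D t β) :
    ∀ t, t < M' → ∀ β : σ → ℕ, dg β = t * D + (j + 1) → Van D t β := by
  intro t
  induction t using Nat.strong_induction_on with
  | _ t iht =>
    intro ht
    by_cases hc : M + (k + 1) ≤ t
    · exact hs t hc ht
    · apply Van_rows (m := k + 1)
      · intro r β hr hβ
        exact hM r (by omega) β (by omega)
      · intro r β hr hβ
        exact iht r (by omega) (by omega) β hβ
      · intro β hcard hβ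
        by_cases hk : (supp β).card = k + 1
        · exact H86.VS.top_strand hD hk h2 (by omega) hβ
        · apply Van_small _ hβ
          have h3 : (supp β).card * (D - 1) ≤ k * (D - 1) := Nat.mul_le_mul_right _ (by omega)
          omega

/-- `k (k + 1) / 2 - 2` for `k = i + 2` -/
def cc : ℕ → ℕ
  | 0 => 1
  | i + 1 => cc i + (i + 3)

theorem cc_closed (i : ℕ) : 2 * cc i + 4 = (i + 2) * (i + 3) := by
  induction i with
  | zero => rfl
  | succ i ih => simp only [cc]; nlinarith

theorem ch1 (m : ℕ) : m + 3 ≤ Nat.choose (m + 3) (m + 1) := by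
  induction m with
  | zero => decide
  | succ m ih =>
    have h1 : Nat.choose (m + 1 + 3) (m + 1 + 1) =
        Nat.choose (m + 3) (m + 1) + Nat.choose (m + 3) (m + 2) := by
      rw [Nat.choose_succ_succ]
    have h2 : 1 ≤ Nat.choose (m + 3) (m + 2) := Nat.choose_pos (by omega)
    omega

theorem ch2 (m : ℕ) : m + 4 ≤ Nat.choose (m + 5) (m + 1) := by
  induction m with
  | zero => decide
  | succ m ih =>
    have h1 : Nat.choose (m + 1 + 5) (m + 1 + 1) =
        Nat.choose (m + 5) (m + 1) + Nat.choose (m + 5) (m + 2) := by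
      rw [Nat.choose_succ_succ]
    have h2 : 1 ≤ Nat.choose (m + 5) (m + 2) := Nat.choose_pos (by omega)
    omega

/-- slack in the block `i + 2`, position `r`, at most by one -/
def SL (E i r x : ℕ) : Prop :=
  E * cc i + (i + 3) * r + 1 + (i + 2) + x + Nat.choose (E + (i + 2) - r) (i + 2) ≤
    Nat.choose (E + (i + 2) + 1) (i + 2)

theorem SL_mono {E i r x y : ℕ} (h : SL E i r x) (hy : y ≤ x) : SL E i r y := by
  unfold SL at *; omega

theorem SL_step {E i r x : ℕ} (h : SL E i r x) (hr : r + 2 ≤ E) : SL E i (r + 1) x := by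
  unfold SL at *
  obtain ⟨n, hn⟩ : ∃ n, E + (i + 2) - r = n + 1 := ⟨E + (i + 2) - r - 1, by omega⟩
  have hn' : E + (i + 2) - (r + 1) = n := by omega
  rw [hn, Nat.choose_succ_succ] at h
  rw [hn']
  have h1 : i + 3 ≤ Nat.choose n (i + 1) := le_trans (ch1 i) (Nat.choose_le_choose _ (by omega))
  have h2 : Nat.choose n (i + 1).succ = Nat.choose n (i + 2) := rfl
  rw [h2] at h
  have h3 : (i + 3) * (r + 1) = (i + 3) * r + (i + 3) := by ring
  rw [h3]
  omega

theorem SL_last {E i x : ℕ} (h : SL E i E (x + 1)) (hE : 1 ≤ E) : SL E i E x := SL_mono h (by omega)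

theorem SL_step_last {E i r x : ℕ} (h : SL E i r (x + 1)) (hr : r + 1 = E) : SL E i (r + 1) x := by
  unfold SL at *
  obtain ⟨n, hn⟩ : ∃ n, E + (i + 2) - r = n + 1 := ⟨E + (i + 2) - r - 1, by omega⟩
  have hn' : E + (i + 2) - (r + 1) = n := by omega
  have hn2 : n = i + 2 := by omega
  rw [hn, Nat.choose_succ_succ] at h
  rw [hn']
  have h1 : Nat.choose n (i + 1) = i + 2 := by
    rw [hn2, Nat.choose_succ_self_right]
  have h2 : Nat.choose n (i + 1).succ = Nat.choose n (i + 2) := rfl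
  rw [h2, h1] at h
  have h3 : (i + 3) * (r + 1) = (i + 3) * r + (i + 3) := by ring
  rw [h3]
  omega

theorem SL_next {E i x : ℕ} (h : SL E i E x) : SL E (i + 1) 0 x := by
  unfold SL at *
  have h1 : E + (i + 2) - E = i + 2 := by omega
  rw [h1, Nat.choose_self] at h
  have h2 : Nat.choose (E + (i + 1 + 2) + 1) (i + 1 + 2) =
      Nat.choose (E + (i + 2) + 1) (i + 2) + Nat.choose (E + (i + 2) + 1) (i + 3) := by
    have : E + (i + 1 + 2) + 1 = (E + (i + 2) + 1) + 1 := by ring
    rw [this, Nat.choose_succ_succ]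
  rw [h2]
  have h3 : E + (i + 1 + 2) - 0 = E + (i + 2) + 1 := by omega
  rw [h3]
  simp only [cc]
  have h4 : E * (cc i + (i + 3)) = E * cc i + (i + 3) * E := by ring
  rw [h4]
  have h5 : i + 1 + 2 = i + 3 := by omega
  rw [h5]
  omega

theorem SL_first {E i : ℕ} (h : SL E (i + 1) 0 1) (hE : 4 ≤ E) : SL E (i + 1) 1 2 := by
  unfold SL at *
  obtain ⟨n, hn⟩ : ∃ n, E + (i + 1 + 2) - 0 = n + 1 := ⟨E + (i + 1 + 2) - 1, by omega⟩
  have hn' : E + (i + 1 + 2) - 1 = n := by omega
  rw [hn, Nat.choose_succ_succ] at h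
  rw [hn']
  have h1 : i + 5 ≤ Nat.choose n (i + 2) :=
    le_trans (ch2 (i + 1)) (Nat.choose_le_choose _ (by omega))
  have h2 : Nat.choose n (i + 1 + 1).succ = Nat.choose n (i + 1 + 2) := rfl
  rw [h2] at h
  have h3 : Nat.choose n (i + 1 + 1) = Nat.choose n (i + 2) := rfl
  rw [h3] at h
  omega

theorem two_ch (n : ℕ) : 2 * Nat.choose (n + 1) 2 = (n + 1) * n := by
  induction n with
  | zero => rfl
  | succ n ih =>
    have h1 : Nat.choose (n + 1 + 1) 2 = Nat.choose (n + 1) 1 + Nat.choose (n + 1) 2 := by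
      rw [Nat.choose_succ_succ]
    rw [h1, Nat.choose_one_right]
    nlinarith

theorem SL_two {E r x : ℕ} (hr : r ≤ E) (h : 3 * r + 2 + 2 * x ≤ r * r + 2 * r * (E - r)) :
    SL E 0 r x := by
  obtain ⟨u, rfl⟩ : ∃ u, E = r + u := ⟨E - r, by omega⟩
  unfold SL
  have e1 : r + u + (0 + 2) - r = (u + 1) + 1 := by omega
  have e2 : r + u + (0 + 2) + 1 = (r + u + 2) + 1 := by omega
  have e3 : r + u - r = u := by omega
  rw [e3] at h
  rw [e1, e2]
  have h1 := two_ch (u + 1)
  have h2 := two_ch (r + u + 2)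
  simp only [cc, Nat.zero_add, Nat.mul_one]
  nlinarith

theorem SL_all {E : ℕ} (hE : 4 ≤ E) : ∀ i r, 1 ≤ r → r ≤ E → SL E i r 0 ∧ (r = E → SL E i r 1) := by
  intro i
  induction i with
  | zero =>
    intro r h1 h2
    obtain ⟨u, hu⟩ : ∃ u, E = r + u := ⟨E - r, by omega⟩
    refine ⟨SL_two h2 ?_, fun h => SL_two h2 ?_⟩
    · rw [hu, Nat.add_sub_cancel_left]
      rcases Nat.lt_or_ge r 2 with h3 | h3
      · have : r = 1 := by omega
        subst this; omega
      · nlinarith
    · subst h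
      rw [Nat.sub_self]
      nlinarith
  | succ i ih =>
    have h0 : SL E (i + 1) 0 1 := SL_next ((ih E (by omega) le_rfl).2 rfl)
    have h1 := SL_first h0 hE
    have h2 : ∀ r, 1 ≤ r → r + 1 ≤ E → SL E (i + 1) r 2 := by
      intro r hr
      induction r, hr using Nat.le_induction with
      | base => intro _; exact h1
      | succ r hr ihr => intro hr2; exact SL_step (ihr (by omega)) (by omega)
    intro r hr1 hr2
    by_cases hr : r = E
    · obtain ⟨r', rfl⟩ : ∃ r', r = r' + 1 := ⟨r - 1, by omega⟩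
      have h3 := SL_step_last (h2 r' (by omega) (by omega)) hr
      exact ⟨SL_mono h3 (by omega), fun _ => h3⟩
    · exact ⟨SL_mono (h2 r hr1 (by omega)) (by omega), fun h => absurd h hr⟩

theorem asm_step {E i r M : ℕ} (h1 : 1 ≤ r) (h2 : r ≤ E)
    (hM : ∀ t, t < M → ∀ β : σ → ℕ, dg β = t * (E + 1) + ((i + 2) * E + r - 1) → Van (E + 1) t β)
    (hf : M + (i + 3) + (i + 2) + Nat.choose (E + (i + 2) - r) (i + 2) ≤
      Nat.choose (E + (i + 2) + 1) (i + 2)) :
    ∀ t, t < M + (i + 3) → ∀ β : σ → ℕ, dg β = t * (E + 1) + ((i + 2) * E + r) →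
      Van (E + 1) t β := by
  obtain ⟨r, rfl⟩ : ∃ r', r = r' + 1 := ⟨r - 1, by omega⟩
  have e1 : (i + 2) * E + (r + 1) - 1 = (i + 2) * E + r := by omega
  rw [e1] at hM
  have e2 : (i + 2) * E + (r + 1) = (i + 2) * E + r + 1 := by omega
  rw [e2]
  refine step (D := E + 1) (k := i + 2) (j := (i + 2) * E + r) (M := M) (by omega)
    (by rw [Nat.add_sub_cancel]; omega) (by
      rw [Nat.add_sub_cancel]
      have : (i + 2 + 1) * E = (i + 2) * E + E := by ring
      omega) hM ?_ (fun t h3 h4 => absurd h3 (by omega))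
  have e3 : (i + 2 + 1) * (E + 1) - 1 - ((i + 2) * E + r + 1) = E + (i + 2) - (r + 1) := by
    have : (i + 2 + 1) * (E + 1) = (i + 2) * E + E + (i + 2 + 1) := by ring
    omega
  have e4 : E + 1 + (i + 2) = E + (i + 2) + 1 := by omega
  rw [e3, e4]
  exact hf

theorem asm {E s : ℕ} (hE : 4 ≤ E) (hs : s ≤ 1)
    (hbase : ∀ t, t + s < E + 4 → ∀ β : σ → ℕ, dg β = t * (E + 1) + (2 * E + 1) →
      Van (E + 1) t β) :
    ∀ i r, 1 ≤ r → r ≤ E → ∀ t, t + s < E * cc i + (i + 3) * r + 1 → ∀ β : σ → ℕ,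
      dg β = t * (E + 1) + ((i + 2) * E + r) → Van (E + 1) t β := by
  have inner : ∀ i, (∀ t, t + s < E * cc i + (i + 3) * 1 + 1 → ∀ β : σ → ℕ,
      dg β = t * (E + 1) + ((i + 2) * E + 1) → Van (E + 1) t β) →
      ∀ r, 1 ≤ r → r ≤ E → ∀ t, t + s < E * cc i + (i + 3) * r + 1 → ∀ β : σ → ℕ,
      dg β = t * (E + 1) + ((i + 2) * E + r) → Van (E + 1) t β := by
    intro i h1 r hr
    induction r, hr using Nat.le_induction with
    | base => intro _; exact h1
    | succ r hr ih =>
      intro hr2 t ht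
      have h3 : (i + 3) * (r + 1) = (i + 3) * r + (i + 3) := by ring
      rw [h3] at ht
      have h4 := (SL_all hE i (r + 1) (by omega) hr2).1
      unfold SL at h4
      rw [h3] at h4
      refine asm_step (M := E * cc i + (i + 3) * r + 1 - s) (by omega) hr2 ?_ ?_ t (by omega)
      · intro t ht β hβ
        apply ih (by omega) t (by omega) β
        rw [hβ]; omega
      · omega
  intro i
  induction i with
  | zero =>
    apply inner
    intro t ht β hβ
    apply hbase t _ β hβ
    simp only [cc] at ht; omega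
  | succ i ih =>
    apply inner
    intro t ht
    have h4 := (SL_all hE (i + 1) 1 (by omega) (by omega)).1
    unfold SL at h4
    simp only [cc] at ht h4
    have h5 : E * (cc i + (i + 3)) = E * cc i + (i + 3) * E := by ring
    rw [h5] at ht h4
    refine asm_step (i := i + 1) (r := 1) (M := E * cc i + (i + 3) * E + 1 - s) (by omega)
      (by omega) ?_ ?_ t (by omega)
    · intro t ht β hβ
      apply ih E (by omega) le_rfl t (by omega) β
      rw [hβ]
      have h6 : (i + 1 + 2) * E = (i + 2) * E + E := by ring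
      omega
    · omega

theorem block1 {E : ℕ} : ∀ t, t < E → ∀ β : σ → ℕ, dg β = t * (E + 1) + 2 * E → Van (E + 1) t β := by
  intro t ht β hβ
  refine Van_Ng (E + 1) (2 * E) t ?_ β hβ
  have h1 := Ng_closed E 1 E le_rfl
  have h2 : 1 * E + E = 2 * E := by ring
  rw [h2] at h1
  nlinarith

theorem base1 {E : ℕ} (hE : 3 ≤ E) : ∀ t, t < E + 3 → ∀ β : σ → ℕ,
    dg β = t * (E + 1) + (2 * E + 1) → Van (E + 1) t β := by
  have h := asm_step (σ := σ) (E := E) (i := 0) (r := 1) (M := E) (by omega) (by omega) (by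
    intro t ht β hβ
    exact block1 t ht β (by rw [hβ]; simp)) (by
    have h1 := SL_two (E := E) (r := 1) (x := 0) (by omega) (by omega)
    unfold SL at h1
    simp only [cc] at h1
    omega)
  intro t ht β hβ
  exact h t (by omega) β (by rw [hβ])

/-- the case `D = 4` -/
theorem asm4 {s : ℕ} (hs : s ≤ 1)
    (hbase : ∀ t, t + s < 7 → ∀ β : σ → ℕ, dg β = t * 4 + 7 → Van 4 t β) :
    (∀ t, t + s < 10 → ∀ β : σ → ℕ, dg β = t * 4 + 8 → Van 4 t β) ∧
    (∀ t, t < 12 → ∀ β : σ → ℕ, dg β = t * 4 + 9 → Van 4 t β) ∧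
    (∀ t, t < 24 → ∀ β : σ → ℕ, dg β = t * 4 + 12 → Van 4 t β) := by
  have h8 : ∀ t, t + s < 10 → ∀ β : σ → ℕ, dg β = t * 4 + 8 → Van 4 t β := by
    have := asm_step (σ := σ) (E := 3) (i := 0) (r := 2) (M := 7 - s) (by omega) (by omega)
      (fun t ht β hβ => hbase t (by omega) β (by omega)) (by
        have : Nat.choose 3 2 = 3 := by decide
        have h2 : Nat.choose 6 2 = 15 := by decide
        norm_num [this, h2]; omega)
    intro t ht β hβ
    exact this t (by omega) β (by omega)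
  have h9 : ∀ t, t < 12 → ∀ β : σ → ℕ, dg β = t * 4 + 9 → Van 4 t β := by
    have := asm_step (σ := σ) (E := 3) (i := 0) (r := 3) (M := 9) (by omega) (by omega)
      (fun t ht β hβ => h8 t (by omega) β (by omega)) (by decide)
    intro t ht β hβ
    exact this t (by omega) β (by omega)
  have h10 : ∀ t, t < 16 → ∀ β : σ → ℕ, dg β = t * 4 + 10 → Van 4 t β := by
    have := asm_step (σ := σ) (E := 3) (i := 1) (r := 1) (M := 12) (by omega) (by omega)
      (fun t ht β hβ => h9 t (by omega) β (by omega)) (by decide)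
    intro t ht β hβ
    exact this t (by omega) β (by omega)
  have h11 : ∀ t, t < 20 → ∀ β : σ → ℕ, dg β = t * 4 + 11 → Van 4 t β := by
    have := asm_step (σ := σ) (E := 3) (i := 1) (r := 2) (M := 16) (by omega) (by omega)
      (fun t ht β hβ => h10 t (by omega) β (by omega)) (by decide)
    intro t ht β hβ
    exact this t (by omega) β (by omega)
  have h12 : ∀ t, t < 24 → ∀ β : σ → ℕ, dg β = t * 4 + 12 → Van 4 t β := by
    have := asm_step (σ := σ) (E := 3) (i := 1) (r := 3) (M := 20) (by omega) (by omega)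
      (fun t ht β hβ => h11 t (by omega) β (by omega)) (by decide)
    intro t ht β hβ
    exact this t (by omega) β (by omega)
  exact ⟨h8, h9, h12⟩

/-- the vanishing in the form of the question -/
theorem final_of {d b q p s : ℕ} (hs : s ≤ 1)
    (hbase : ∀ t, t + s < d + 3 → ∀ β : σ → ℕ, dg β = t * d + (2 * d - 1) → Van d t β)
    (hd : b + q + 1 ≤ d) (h4 : 4 ≤ d) (hq : 2 ≤ q) (hex : d = 4 → q = 3 → p ≤ 23)
    (hp1 : (p : ℤ) ≤ (Nat.choose (d + q) q : ℤ) - (Nat.choose (d - b - 1) q : ℤ) - (q : ℤ) - 1)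
    (hp2 : 2 * (p + s) ≤ (d - 1) * (q * (q + 1) - 4) + 2 * (q + 1) * (q + b)) :
    ∀ β : σ → ℕ, dg β = p * d + (b + q * d) → Van d p β := by
  obtain ⟨E, rfl⟩ : ∃ E, d = E + 1 := ⟨d - 1, by omega⟩
  obtain ⟨i, rfl⟩ : ∃ i, q = i + 2 := ⟨q - 2, by omega⟩
  have hcc := cc_closed i
  have e1 : (i + 2) * (i + 2 + 1) - 4 = 2 * cc i := by
    have : (i + 2) * (i + 2 + 1) = (i + 2) * (i + 3) := by ring
    omega
  rw [e1, Nat.add_sub_cancel] at hp2
  have e2 : E * (2 * cc i) = 2 * (E * cc i) := by ring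
  have e3 : 2 * (i + 2 + 1) * (i + 2 + b) = 2 * ((i + 3) * (i + 2 + b)) := by ring
  rw [e2, e3] at hp2
  have e4 : b + (i + 2) * (E + 1) = (i + 2) * E + (i + 2 + b) := by ring
  rw [e4]
  rcases Nat.lt_or_ge E 4 with hE | hE
  · have hE3 : E = 3 := by omega
    subst hE3
    obtain ⟨g8, g9, g12⟩ := asm4 (σ := σ) hs (fun t ht β hβ => hbase t (by omega) β (by omega))
    intro β hβ
    have hi : i = 0 ∧ b = 0 ∨ i = 0 ∧ b = 1 ∨ i = 1 ∧ b = 0 := by omega
    rcases hi with ⟨rfl, rfl⟩ | ⟨rfl, rfl⟩ | ⟨rfl, rfl⟩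
    · simp only [cc] at hp2
      exact g8 p (by omega) β (by omega)
    · have h1 : Nat.choose (3 + 1 + (0 + 2)) (0 + 2) = 15 := by decide
      have h2 : Nat.choose (3 + 1 - 1 - 1) (0 + 2) = 1 := by decide
      rw [h1, h2] at hp1
      exact g9 p (by push_cast at hp1; omega) β (by omega)
    · have := hex rfl rfl
      exact g12 p (by omega) β (by omega)
  · refine asm hE hs ?_ i (i + 2 + b) (by omega) (by omega) p (by omega)
    intro t ht β hβ
    exact hbase t (by omega) β (by omega)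

end Pool.Agent.H69.VS
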