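import Pool.Agent.H69.VS.Red

/-!
The bridge between functions on words and the Koszul complex over the exterior algebra.
-/

set_option linter.unusedSectionVars false

namespace Pool.Agent.H69.VS

open scoped BigOperators TensorProduct

section gen
variable {σ : Type} [Fintype σ] [DecidableEq σ]

/-- the super-symmetric functions -/
def SSm (σ : Type) [Fintype σ] [DecidableEq σ] : Submodule ℂ (Fn σ) where
  carrier := {F | SS F}
  add_mem' := fun h h' => SS.add h h'
  zero_mem' := SS.zero
  smul_mem' := fun c _ h => SS.smul h c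

/-- put the letter `x^e` in front -/
noncomputable def opE (e : σ → ℕ) : SSm σ →ₗ[ℂ] SSm σ where
  toFun F := ⟨Af (Lt.E e) F.1, F.2.af _⟩
  map_add' _ _ := rfl
  map_smul' _ _ := rfl

/-- the differential -/
noncomputable def opD (D : ℕ) : SSm σ →ₗ[ℂ] SSm σ where
  toFun F := ⟨dW D F.1, F.2.dW D⟩
  map_add' F G := Subtype.ext (dW_add' D F.1 G.1)
  map_smul' c F := Subtype.ext (dW_smul' D F.1 c)

/-- the shift -/
noncomputable def opS (g : σ → ℕ) : SSm σ →ₗ[ℂ] SSm σ where
  toFun F := ⟨sg g F.1, F.2.sg g⟩
  map_add' _ _ := rfl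
  map_smul' _ _ := rfl

theorem opE_anti (e e' : σ → ℕ) (F : SSm σ) : opE e (opE e' F) = - opE e' (opE e F) := by
  apply Subtype.ext
  have := SS.front F.2 (Lt.E e') (Lt.E e)
  simp only [sn, neg_one_smul] at this
  exact this

theorem opE_opD (D : ℕ) (e : σ → ℕ) (he : dg e = D) (F : SSm σ) :
    opE e (opD D F) = opS e F - opD D (opE e F) := by
  apply Subtype.ext
  have := AE_dW D F.1 e
  have h1 : cE D e = 1 := by simp [cE, he]
  rw [h1, one_smul] at this
  exact this

theorem opE_opS (g e : σ → ℕ) (F : SSm σ) : opE e (opS g F) = opS g (opE e F) := rfl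

end gen

variable (n D : ℕ)

/-- monomials of degree `D` -/
abbrev Ix : Type := ↥(Finset.Nat.antidiagonalTuple (n + 1) D)
/-- the space of forms, by its basis -/
abbrev MM : Type := Ix n D →₀ ℂ
/-- the exterior algebra -/
abbrev EA : Type := ExteriorAlgebra ℂ (MM n D)
/-- the polynomial ring -/
abbrev PP : Type := MvPolynomial (Fin (n + 1)) ℂ

/-- contraction with the coordinate `e` -/
noncomputable abbrev ctr (e : Ix n D) : EA n D →ₗ[ℂ] EA n D :=
  CliffordAlgebra.contractLeft (Q := (0 : QuadraticForm ℂ (MM n D))) (Finsupp.lapply e)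

/-- the Koszul differential -/
noncomputable def KD : (EA n D ⊗[ℂ] PP n) →ₗ[ℂ] (EA n D ⊗[ℂ] PP n) :=
  ∑ e : Ix n D, TensorProduct.map (ctr n D e)
    (LinearMap.mulLeft ℂ (∏ j : Fin (n + 1), (MvPolynomial.X j : PP n) ^ (e.1 j)))

theorem dg_Ix (e : Ix n D) : dg e.1 = D := Finset.Nat.mem_antidiagonalTuple.1 e.2

/-- the action of the forms on the super-symmetric functions -/
noncomputable def fM : MM n D →ₗ[ℂ] SSm (Fin (n + 1)) →ₗ[ℂ] SSm (Fin (n + 1)) :=
  Finsupp.linearCombination ℂ (fun e : Ix n D => opE e.1)

theorem fM_single (e : Ix n D) (c : ℂ) : fM n D (Finsupp.single e c) = c • opE e.1 := by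
  simp [fM]

theorem fM_anti (m m' : MM n D) (F : SSm (Fin (n + 1))) :
    fM n D m (fM n D m' F) = - fM n D m' (fM n D m F) := by
  induction m using Finsupp.induction_linear with
  | zero => simp
  | add m1 m2 h1 h2 => rw [map_add, LinearMap.add_apply, h1, h2, LinearMap.add_apply, map_add]; abel
  | single e c =>
    induction m' using Finsupp.induction_linear with
    | zero => simp
    | add m1 m2 h1 h2 =>
      rw [map_add, LinearMap.add_apply, map_add, h1, h2, LinearMap.add_apply]; abel
    | single e' c' =>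
      rw [fM_single, fM_single]
      simp only [LinearMap.smul_apply, map_smul]
      rw [opE_anti]
      simp only [smul_neg, smul_smul]
      rw [mul_comm]

theorem fM_sq (m : MM n D) (F : SSm (Fin (n + 1))) :
    fM n D m (fM n D m F) = (0 : QuadraticForm ℂ (MM n D)) m • F := by
  have h := fM_anti n D m m F
  have h2 : fM n D m (fM n D m F) = 0 := by
    have h3 : (2 : ℂ) • fM n D m (fM n D m F) = 0 := by
      rw [two_smul]; nth_rewrite 1 [h]; exact neg_add_cancel _
    exact (smul_eq_zero.1 h3).resolve_left two_ne_zero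
  rw [h2]
  simp

/-- the action of the exterior algebra -/
noncomputable def act : SSm (Fin (n + 1)) →ₗ[ℂ] EA n D →ₗ[ℂ] SSm (Fin (n + 1)) :=
  CliffordAlgebra.foldl (0 : QuadraticForm ℂ (MM n D)) (fM n D) (fM_sq n D)

theorem act_ι_mul (F : SSm (Fin (n + 1))) (m : MM n D) (a : EA n D) :
    act n D F (CliffordAlgebra.ι (0 : QuadraticForm ℂ (MM n D)) m * a) =
      act n D (fM n D m F) a := by
  unfold act
  rw [CliffordAlgebra.foldl_mul, CliffordAlgebra.foldl_ι]

theorem act_algebraMap (F : SSm (Fin (n + 1))) (r : ℂ) :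
    act n D F (algebraMap ℂ (CliffordAlgebra (0 : QuadraticForm ℂ (MM n D))) r) = r • F := by
  unfold act
  rw [CliffordAlgebra.foldl_algebraMap]

theorem fM_opD (m : MM n D) (F : SSm (Fin (n + 1))) :
    fM n D m (opD D F) = (∑ e : Ix n D, m e • opS e.1 F) - opD D (fM n D m F) := by
  induction m using Finsupp.induction_linear with
  | zero => simp
  | add m1 m2 h1 h2 =>
    rw [map_add, LinearMap.add_apply, h1, h2, LinearMap.add_apply, map_add]
    simp only [Finsupp.add_apply, add_smul, Finset.sum_add_distrib]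
    abel
  | single e c =>
    rw [fM_single]
    simp only [LinearMap.smul_apply, map_smul]
    rw [opE_opD D e.1 (dg_Ix n D e), smul_sub]
    congr 1
    rw [Finset.sum_eq_single e]
    · simp
    · intro b _ hb
      rw [Finsupp.single_eq_of_ne hb, zero_smul]
    · intro h; exact absurd (Finset.mem_univ _) h

theorem fM_opS (g : Fin (n + 1) → ℕ) (m : MM n D) (F : SSm (Fin (n + 1))) :
    fM n D m (opS g F) = opS g (fM n D m F) := by
  induction m using Finsupp.induction_linear with
  | zero => simp
  | add m1 m2 h1 h2 => rw [map_add, LinearMap.add_apply, h1, h2, LinearMap.add_apply, map_add]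
  | single e c =>
    rw [fM_single]
    simp only [LinearMap.smul_apply, map_smul, opE_opS]

theorem act_opS (g : Fin (n + 1) → ℕ) (a : EA n D) : ∀ F : SSm (Fin (n + 1)),
    act n D (opS g F) a = opS g (act n D F a) := by
  induction a using CliffordAlgebra.left_induction with
  | algebraMap r =>
    intro F
    rw [act_algebraMap, act_algebraMap, map_smul]
  | add x y hx hy => intro F; rw [map_add, map_add, hx, hy, map_add]
  | ι_mul x m hx =>
    intro F
    rw [act_ι_mul, act_ι_mul, fM_opS, hx]

theorem act_opD (a : EA n D) : ∀ F : SSm (Fin (n + 1)),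
    act n D (opD D F) a = (∑ e : Ix n D, opS e.1 (act n D F (ctr n D e a))) +
      opD D (act n D F (CliffordAlgebra.involute a)) := by
  induction a using CliffordAlgebra.left_induction with
  | algebraMap r =>
    intro F
    rw [act_algebraMap]
    have h1 : ∀ e : Ix n D, ctr n D e
        (algebraMap ℂ (CliffordAlgebra (0 : QuadraticForm ℂ (MM n D))) r) = 0 := fun e =>
      CliffordAlgebra.contractLeft_algebraMap _ _ _
    simp only [h1, map_zero, Finset.sum_const_zero, zero_add]
    rw [AlgHom.commutes, act_algebraMap, map_smul]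
  | add x y hx hy =>
    intro F
    rw [map_add, hx, hy]
    simp only [map_add, Finset.sum_add_distrib]
    abel
  | ι_mul x m hx =>
    intro F
    rw [act_ι_mul, fM_opD, map_sub, LinearMap.sub_apply, hx]
    have h1 : ∀ e : Ix n D, ctr n D e (CliffordAlgebra.ι (0 : QuadraticForm ℂ (MM n D)) m * x) =
        m e • x - CliffordAlgebra.ι (0 : QuadraticForm ℂ (MM n D)) m * ctr n D e x := fun e =>
      CliffordAlgebra.contractLeft_ι_mul _ _ _
    simp only [h1, map_sub, act_ι_mul, map_smul, Finset.sum_sub_distrib]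
    rw [map_mul, CliffordAlgebra.involute_ι, neg_mul, map_neg, map_neg, act_ι_mul]
    have h2 : act n D (∑ e : Ix n D, m e • opS e.1 F) x = ∑ e : Ix n D, m e • opS e.1 (act n D F x) := by
      rw [map_sum, LinearMap.sum_apply]
      apply Finset.sum_congr rfl
      intro e _
      rw [map_smul, LinearMap.smul_apply, act_opS]
    rw [h2]
    abel

end Pool.Agent.H69.VS
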