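import Pool.Agent.H69.VS.Brd

/-!
The bridge, second part: vanishing on words gives exactness of the Koszul complex.
-/

set_option linter.unusedSectionVars false

namespace Pool.Agent.H69.VS

open scoped BigOperators TensorProduct

variable (n D : ℕ)

/-- the monomial with exponent `f` -/
noncomputable abbrev mono (f : Fin (n + 1) →₀ ℕ) : PP n := MvPolynomial.monomial f 1

/-- function to finitely supported function -/
noncomputable abbrev toF (f : Fin (n + 1) → ℕ) : Fin (n + 1) →₀ ℕ := Finsupp.equivFunOnFinite.symm f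

theorem prodX (e : Fin (n + 1) → ℕ) (f : Fin (n + 1) → ℕ) :
    (∏ j : Fin (n + 1), (MvPolynomial.X j : PP n) ^ (e j)) * mono n (toF n f) =
      mono n (toF n (f + e)) := by
  have h1 : (∏ j : Fin (n + 1), (MvPolynomial.X j : PP n) ^ (e j)) = mono n (toF n e) := by
    unfold mono
    rw [MvPolynomial.monomial_eq, Finsupp.prod_fintype _ _ (by intro i; simp)]
    simp
  rw [h1]
  have h2 : toF n e + toF n f = toF n (f + e) := by
    ext i; simp [add_comm]
  unfold mono
  rw [MvPolynomial.monomial_mul, one_mul, h2]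

theorem KD_mono (a : EA n D) (f : Fin (n + 1) → ℕ) :
    KD n D (a ⊗ₜ[ℂ] mono n (toF n f)) =
      ∑ e : Ix n D, (ctr n D e a) ⊗ₜ[ℂ] mono n (toF n (f + e.1)) := by
  unfold KD
  rw [LinearMap.sum_apply]
  apply Finset.sum_congr rfl
  intro e _
  rw [TensorProduct.map_tmul, LinearMap.mulLeft_apply, prodX]

/-- evaluation at the empty word -/
noncomputable def evN : SSm (Fin (n + 1)) →ₗ[ℂ] (PP n →ₗ[ℂ] ℂ) where
  toFun F := (MvPolynomial.basisMonomials (Fin (n + 1)) ℂ).constr ℂ (fun f => F.1 [] (fun i => f i))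
  map_add' F G := by
    apply (MvPolynomial.basisMonomials (Fin (n + 1)) ℂ).ext
    intro f
    rw [LinearMap.add_apply, Module.Basis.constr_basis, Module.Basis.constr_basis,
      Module.Basis.constr_basis]
    rfl
  map_smul' c F := by
    apply (MvPolynomial.basisMonomials (Fin (n + 1)) ℂ).ext
    intro f
    rw [LinearMap.smul_apply, Module.Basis.constr_basis, Module.Basis.constr_basis]
    rfl

theorem evN_mono (F : SSm (Fin (n + 1))) (f : Fin (n + 1) → ℕ) :
    evN n F (mono n (toF n f)) = F.1 [] f := by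
  have h1 : mono n (toF n f) = MvPolynomial.basisMonomials (Fin (n + 1)) ℂ (toF n f) := by
    rw [MvPolynomial.coe_basisMonomials]
  rw [h1]
  show (MvPolynomial.basisMonomials (Fin (n + 1)) ℂ).constr ℂ _ _ = _
  rw [Module.Basis.constr_basis]
  rfl

/-- the functional of a super-symmetric function -/
noncomputable def psi (F : SSm (Fin (n + 1))) : (EA n D ⊗[ℂ] PP n) →ₗ[ℂ] ℂ :=
  TensorProduct.lift (evN n ∘ₗ act n D F)

theorem psi_mono (F : SSm (Fin (n + 1))) (a : EA n D) (f : Fin (n + 1) → ℕ) :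
    psi n D F (a ⊗ₜ[ℂ] mono n (toF n f)) = (act n D F a).1 [] f := by
  unfold psi
  rw [TensorProduct.lift.tmul, LinearMap.comp_apply, evN_mono]

theorem ext_mono {A B : (EA n D ⊗[ℂ] PP n) →ₗ[ℂ] ℂ}
    (h : ∀ (a : EA n D) (f : Fin (n + 1) → ℕ), A (a ⊗ₜ[ℂ] mono n (toF n f)) =
      B (a ⊗ₜ[ℂ] mono n (toF n f))) : A = B := by
  apply TensorProduct.ext'
  intro a g
  have h1 : (A ∘ₗ TensorProduct.mk ℂ (EA n D) (PP n) a) = (B ∘ₗ TensorProduct.mk ℂ (EA n D) (PP n) a) := by
    apply (MvPolynomial.basisMonomials (Fin (n + 1)) ℂ).ext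
    intro f
    have h2 := h a (fun i => f i)
    have h3 : toF n (fun i => f i) = f := by ext i; rfl
    rw [h3] at h2
    rw [MvPolynomial.coe_basisMonomials]
    exact h2
  exact LinearMap.congr_fun h1 g

theorem psi_opD (F : SSm (Fin (n + 1))) : psi n D (opD D F) = psi n D F ∘ₗ KD n D := by
  apply ext_mono
  intro a f
  rw [psi_mono, LinearMap.comp_apply, KD_mono, map_sum, act_opD]
  have h1 : ∀ e : Ix n D, psi n D F ((ctr n D e a) ⊗ₜ[ℂ] mono n (toF n (f + e.1))) =
      (opS e.1 (act n D F (ctr n D e a))).1 [] f := by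
    intro e
    rw [psi_mono]
    rfl
  rw [Finset.sum_congr rfl (fun e _ => h1 e)]
  have h2 : ∀ (s : Finset (Ix n D)) (g : Ix n D → SSm (Fin (n + 1))),
      (∑ e ∈ s, g e).1 [] f = ∑ e ∈ s, (g e).1 [] f := by
    intro s g
    induction s using Finset.induction_on with
    | empty => simp
    | insert a s ha ih => rw [Finset.sum_insert ha, Finset.sum_insert ha, ← ih]; rfl
  have h3 : ∀ X Y : SSm (Fin (n + 1)), (X + Y).1 [] f = X.1 [] f + Y.1 [] f := fun X Y => rfl
  rw [h3, h2]
  have h4 : ∀ X : SSm (Fin (n + 1)), (opD D X).1 [] f = 0 := fun X => dW_nil D X.1 f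
  rw [h4, add_zero]

/-- the element of a letter -/
noncomputable def lt : Lt (Fin (n + 1)) → EA n D
  | Lt.T _ => 0
  | Lt.E e => if h : e ∈ Finset.Nat.antidiagonalTuple (n + 1) D then
      CliffordAlgebra.ι (0 : QuadraticForm ℂ (MM n D)) (Finsupp.single ⟨e, h⟩ 1) else 0

/-- the product of a word -/
noncomputable def wd : List (Lt (Fin (n + 1))) → EA n D
  | [] => 1
  | x :: w => lt n D x * wd w

theorem wd_append (u v : List (Lt (Fin (n + 1)))) : wd n D (u ++ v) = wd n D u * wd n D v := by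
  induction u with
  | nil => simp [wd]
  | cons x u ih => simp [wd, ih, mul_assoc]

theorem lt_comm (x y : Lt (Fin (n + 1))) : lt n D x * lt n D y = sn x y • (lt n D y * lt n D x) := by
  cases x with
  | T _ => simp [lt]
  | E e =>
    cases y with
    | T _ => simp [lt]
    | E e' =>
      simp only [lt, sn]
      split_ifs with h1 h2
      · rw [neg_one_smul]
        have := CliffordAlgebra.ι_mul_ι_add_swap (Q := (0 : QuadraticForm ℂ (MM n D)))
          (Finsupp.single ⟨e, h1⟩ 1) (Finsupp.single ⟨e', h2⟩ 1)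
        have h3 : QuadraticMap.polar (0 : QuadraticForm ℂ (MM n D))
          (Finsupp.single ⟨e, h1⟩ 1) (Finsupp.single ⟨e', h2⟩ 1) = 0 := by
          simp [QuadraticMap.polar]
        rw [h3, map_zero] at this
        exact eq_neg_of_add_eq_zero_left this
      · simp
      · simp
      · simp

/-- function on words of a functional -/
noncomputable def Fph (φ : (EA n D ⊗[ℂ] PP n) →ₗ[ℂ] ℂ) (a : EA n D) : Fn (Fin (n + 1)) :=
  fun w f => φ ((a * wd n D w) ⊗ₜ[ℂ] mono n (toF n f))

theorem SS_Fph (φ : (EA n D ⊗[ℂ] PP n) →ₗ[ℂ] ℂ) (a : EA n D) : SS (Fph n D φ a) := by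
  intro u x y v f
  have h1 : a * wd n D (u ++ x :: y :: v) = sn x y • (a * wd n D (u ++ y :: x :: v)) := by
    rw [wd_append, wd_append]
    simp only [wd]
    have h2 : lt n D x * (lt n D y * wd n D v) = sn x y • (lt n D y * (lt n D x * wd n D v)) := by
      rw [← mul_assoc, lt_comm, smul_mul_assoc, mul_assoc]
    rw [h2, mul_smul_comm, mul_smul_comm]
  simp only [Fph]
  rw [h1, ← TensorProduct.smul_tmul', map_smul, smul_eq_mul]

theorem dW_Fph (φ : (EA n D ⊗[ℂ] PP n) →ₗ[ℂ] ℂ) (w : List (Lt (Fin (n + 1)))) :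
    ∀ (a : EA n D) (f : Fin (n + 1) → ℕ), dW D (Fph n D φ a) w f =
      ∑ e : Ix n D, φ ((a * ctr n D e (wd n D w)) ⊗ₜ[ℂ] mono n (toF n (f + e.1))) := by
  induction w with
  | nil =>
    intro a f
    rw [dW_nil]
    symm
    apply Finset.sum_eq_zero
    intro e _
    have h1 : ctr n D e (wd n D []) = 0 := CliffordAlgebra.contractLeft_one _ _
    rw [h1, mul_zero, TensorProduct.zero_tmul, map_zero]
  | cons x w ih =>
    intro a f
    have hA : Af x (Fph n D φ a) = Fph n D φ (a * lt n D x) := by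
      funext w f
      simp only [Af, Fph, wd, mul_assoc]
    by_cases hx : ∃ e, ∃ h : e ∈ Finset.Nat.antidiagonalTuple (n + 1) D, x = Lt.E e
    · obtain ⟨e, he, rfl⟩ := hx
      have hd : dg e = D := Finset.Nat.mem_antidiagonalTuple.1 he
      simp only [dW, if_pos hd]
      rw [hA, ih]
      have hl : lt n D (Lt.E e) =
          CliffordAlgebra.ι (0 : QuadraticForm ℂ (MM n D)) (Finsupp.single ⟨e, he⟩ 1) := by
        simp only [lt, dif_pos he]
      have h1 : ∀ e' : Ix n D, ctr n D e' (wd n D (Lt.E e :: w)) =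
          (Finsupp.single (⟨e, he⟩ : Ix n D) (1 : ℂ)) e' • wd n D w -
            lt n D (Lt.E e) * ctr n D e' (wd n D w) := by
        intro e'
        simp only [wd]
        rw [hl]
        exact CliffordAlgebra.contractLeft_ι_mul _ _ _
      have h2 : ∀ e' : Ix n D, φ ((a * ctr n D e' (wd n D (Lt.E e :: w))) ⊗ₜ[ℂ]
            mono n (toF n (f + e'.1))) =
          (Finsupp.single (⟨e, he⟩ : Ix n D) (1 : ℂ)) e' *
            φ ((a * wd n D w) ⊗ₜ[ℂ] mono n (toF n (f + e'.1))) -
          φ ((a * lt n D (Lt.E e) * ctr n D e' (wd n D w)) ⊗ₜ[ℂ] mono n (toF n (f + e'.1))) := by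
        intro e'
        rw [h1, mul_sub, TensorProduct.sub_tmul, map_sub, mul_smul_comm,
          ← TensorProduct.smul_tmul', map_smul, smul_eq_mul, mul_assoc]
      rw [Finset.sum_congr rfl (fun e' _ => h2 e'), Finset.sum_sub_distrib]
      congr 1
      rw [Finset.sum_eq_single (⟨e, he⟩ : Ix n D)]
      · simp [Fph]
      · intro b _ hb
        rw [Finsupp.single_eq_of_ne hb, zero_mul]
      · intro h; exact absurd (Finset.mem_univ _) h
    · have hl : lt n D x = 0 := by
        cases x with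
        | T _ => rfl
        | E e =>
          simp only [lt]
          rw [dif_neg]
          intro he
          exact hx ⟨e, he, rfl⟩
      have hF0 : Fph n D φ (a * lt n D x) = 0 := by
        funext w f
        simp [Fph, hl]
      have h1 : dW D (Fph n D φ a) (x :: w) f = 0 := by
        cases x with
        | T y => simp only [dW]; rw [hA, hF0, dW_zero']; rfl
        | E e =>
          have hd : dg e ≠ D := fun hd => hx ⟨e, Finset.Nat.mem_antidiagonalTuple.2 hd, rfl⟩
          simp only [dW, if_neg hd]; rw [hA, hF0, dW_zero']; simp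
      rw [h1]
      symm
      apply Finset.sum_eq_zero
      intro e _
      simp [wd, hl]

theorem dW_Fph_zero {φ : (EA n D ⊗[ℂ] PP n) →ₗ[ℂ] ℂ} (h : ∀ y, φ (KD n D y) = 0) :
    dW D (Fph n D φ 1) = 0 := by
  funext w f
  rw [dW_Fph]
  have := h (wd n D w ⊗ₜ[ℂ] mono n (toF n f))
  rw [KD_mono, map_sum] at this
  show _ = (0 : ℂ)
  simpa only [one_mul] using this

/-- good words -/
def gw (w : List (Lt (Fin (n + 1)))) : Prop :=
  ∀ x ∈ w, ∃ e ∈ Finset.Nat.antidiagonalTuple (n + 1) D, x = Lt.E e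

theorem gw_cons {x : Lt (Fin (n + 1))} {w : List (Lt (Fin (n + 1)))} (h : gw n D (x :: w)) :
    gw n D w := fun y hy => h y (List.mem_cons_of_mem _ hy)

theorem gw_nT : ∀ (w : List (Lt (Fin (n + 1)))), gw n D w → nT w = 0
  | [], _ => rfl
  | Lt.T y :: w, h => by
    obtain ⟨e, _, h2⟩ := h (Lt.T y) List.mem_cons_self
    exact absurd h2 (by simp)
  | Lt.E y :: w, h => gw_nT w (gw_cons n D h)

theorem gw_ok {w : List (Lt (Fin (n + 1)))} (h : gw n D w) : ∀ x ∈ w, okL D x := by
  intro x hx
  obtain ⟨e, he, rfl⟩ := h x hx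
  exact Finset.Nat.mem_antidiagonalTuple.1 he

theorem act_wd (w : List (Lt (Fin (n + 1)))) (hw : gw n D w) :
    ∀ (F : SSm (Fin (n + 1))) (v : List (Lt (Fin (n + 1)))) (f : Fin (n + 1) → ℕ),
      (act n D F (wd n D w)).1 v f = F.1 (w ++ v) f := by
  induction w with
  | nil =>
    intro F v f
    have h1 : wd n D [] = algebraMap ℂ (CliffordAlgebra (0 : QuadraticForm ℂ (MM n D))) 1 := by
      rw [map_one]; rfl
    rw [h1, act_algebraMap, one_smul]
    rfl
  | cons x w ih =>
    intro F v f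
    obtain ⟨e, he, rfl⟩ := hw x List.mem_cons_self
    have hl : wd n D (Lt.E e :: w) =
        CliffordAlgebra.ι (0 : QuadraticForm ℂ (MM n D)) (Finsupp.single ⟨e, he⟩ 1) * wd n D w := by
      simp only [wd, lt, dif_pos he]
    rw [hl, act_ι_mul, ih (gw_cons n D hw), fM_single, one_smul]
    rfl

theorem span_wd (p : ℕ) (a : EA n D) (ha : a ∈ ExteriorAlgebra.exteriorPower ℂ p (MM n D)) :
    a ∈ Submodule.span ℂ {b | ∃ w, gw n D w ∧ w.length = p ∧ b = wd n D w} := by
  induction ha using Submodule.pow_induction_on_left' with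
  | algebraMap r =>
    rw [Algebra.algebraMap_eq_smul_one]
    apply Submodule.smul_mem
    apply Submodule.subset_span
    exact ⟨[], fun x hx => absurd hx (by simp), rfl, rfl⟩
  | add x y i hx hy h1 h2 => exact Submodule.add_mem _ h1 h2
  | mem_mul m hm i x hx ih =>
    obtain ⟨m', rfl⟩ := hm
    have h1 : ∀ e : Ix n D, (ExteriorAlgebra.ι ℂ (Finsupp.single e 1)) * x ∈
        Submodule.span ℂ {b | ∃ w, gw n D w ∧ w.length = i.succ ∧ b = wd n D w} := by
      intro e
      clear hx
      induction ih using Submodule.span_induction with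
      | mem b hb =>
        obtain ⟨w, w1, w2, rfl⟩ := hb
        apply Submodule.subset_span
        refine ⟨Lt.E e.1 :: w, ?_, by simp [w2], ?_⟩
        · intro x hx
          rcases List.mem_cons.1 hx with hx | hx
          · exact ⟨e.1, e.2, hx⟩
          · exact w1 x hx
        · simp only [wd, lt, dif_pos e.2]
      | zero => rw [mul_zero]; exact Submodule.zero_mem _
      | add b c _ _ hb hc => rw [mul_add]; exact Submodule.add_mem _ hb hc
      | smul r b _ hb => rw [mul_smul_comm]; exact Submodule.smul_mem _ _ hb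
    induction m' using Finsupp.induction_linear with
    | zero => rw [map_zero, zero_mul]; exact Submodule.zero_mem _
    | add m1 m2 g1 g2 => rw [map_add, add_mul]; exact Submodule.add_mem _ g1 g2
    | single e c =>
      have : (Finsupp.single e c : MM n D) = c • Finsupp.single e 1 := by simp
      rw [this, map_smul, smul_mul_assoc]
      exact Submodule.smul_mem _ _ (h1 e)

theorem agree {p N : ℕ} {A B : (EA n D ⊗[ℂ] PP n) →ₗ[ℂ] ℂ}
    (h : ∀ (w : List (Lt (Fin (n + 1)))) (f : Fin (n + 1) → ℕ), gw n D w → w.length = p →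
      dg f = N → A (wd n D w ⊗ₜ[ℂ] mono n (toF n f)) = B (wd n D w ⊗ₜ[ℂ] mono n (toF n f)))
    (a : EA n D) (ha : a ∈ ExteriorAlgebra.exteriorPower ℂ p (MM n D))
    (g : PP n) (hg : g ∈ MvPolynomial.homogeneousSubmodule (Fin (n + 1)) ℂ N) :
    A (a ⊗ₜ[ℂ] g) = B (a ⊗ₜ[ℂ] g) := by
  have h1 : ∀ (f : Fin (n + 1) → ℕ), dg f = N →
      A (a ⊗ₜ[ℂ] mono n (toF n f)) = B (a ⊗ₜ[ℂ] mono n (toF n f)) := by
    intro f hf
    have := span_wd n D p a ha
    clear ha
    induction this using Submodule.span_induction with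
    | mem b hb =>
      obtain ⟨w, w1, w2, rfl⟩ := hb
      exact h w f w1 w2 hf
    | zero => rw [TensorProduct.zero_tmul, map_zero, map_zero]
    | add b c _ _ hb hc => rw [TensorProduct.add_tmul, map_add, map_add, hb, hc]
    | smul r b _ hb => rw [← TensorProduct.smul_tmul', map_smul, map_smul, hb]
  have h2 : g = ∑ v ∈ g.support, MvPolynomial.coeff v g • mono n v := by
    conv_lhs => rw [← MvPolynomial.support_sum_monomial_coeff g]
    apply Finset.sum_congr rfl
    intro v _
    rw [MvPolynomial.smul_monomial, smul_eq_mul, mul_one]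
  rw [h2, TensorProduct.tmul_sum, map_sum, map_sum]
  apply Finset.sum_congr rfl
  intro v hv
  rw [TensorProduct.tmul_smul, map_smul, map_smul]
  congr 1
  have h3 : toF n (fun i => v i) = v := by ext i; rfl
  have h4 := h1 (fun i => v i) (by
    have h5 := (MvPolynomial.mem_homogeneousSubmodule _ _).1 hg
    have h6 := h5 (MvPolynomial.mem_support_iff.1 hv)
    rw [← h6, Finsupp.weight_apply]
    rw [Finsupp.sum_fintype _ _ (by intro i; simp)]
    simp [dg])
  rw [h3] at h4
  exact h4

theorem dW_cut_zero {σ : Type} [Fintype σ] [DecidableEq σ] {D t : ℕ} {β : σ → ℕ} {F : Fn σ}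
    (h : dW D F = 0) : dW D (cut D 0 t β F) = 0 := by
  funext w f
  by_contra hne
  have hs := Sp.dW (Sp_cut (D := D) (s := 0) (t := t) (β := β) (F := F)) w f hne
  have h2 : dW D (cut D 0 t β F) w f = dW D F w f := by
    by_contra h3
    have h4 : dW D (F - cut D 0 t β F) w f ≠ 0 := by
      rw [dW_sub']; simp only [Pi.sub_apply]; intro h5; apply h3
      rw [sub_eq_zero] at h5; exact h5.symm
    obtain ⟨u, e, v, rfl, h5, h6⟩ := dW_ne D w _ f h4
    apply h6
    have h7 : (u ++ v).length + 0 = t ∧ nT (u ++ v) = 0 ∧ md (u ++ v) + (f + e) = β ∧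
        ∀ x ∈ u ++ v, okL D x := by
      obtain ⟨b1, b2, b3, b4⟩ := hs
      refine ⟨?_, ?_, ?_, ?_⟩
      · simp only [List.length_append, List.length_cons] at b1 ⊢; omega
      · simp only [nT_append, nT] at b2 ⊢; omega
      · rw [← b3]; simp only [md_append, md]; abel
      · intro x hx
        apply b4
        simp only [List.mem_append, List.mem_cons] at hx ⊢
        tauto
    have e1 : cut D 0 t β F (u ++ v) (f + e) = F (u ++ v) (f + e) := if_pos h7
    simp only [Pi.sub_apply, e1, sub_self]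
  rw [h2, h] at hne
  exact hne rfl

/-- the bridge -/
theorem bridge {p N : ℕ} (h : ∀ β : Fin (n + 1) → ℕ, dg β = p * D + N → Van D p β) :
    ∀ x ∈ LinearMap.range
      (TensorProduct.map (ExteriorAlgebra.exteriorPower ℂ p (MM n D)).subtype
        (MvPolynomial.homogeneousSubmodule (Fin (n + 1)) ℂ N).subtype),
      KD n D x = 0 → ∃ y, KD n D y = x := by
  intro x hx hKx
  by_contra hno
  have hx' : x ∉ LinearMap.range (KD n D) := hno
  obtain ⟨φ, hφ1, hφ2⟩ := Submodule.exists_le_ker_of_notMem hx'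
  apply hφ1
  have hφ : ∀ y, φ (KD n D y) = 0 := fun y => hφ2 ⟨y, rfl⟩
  have hF := dW_Fph_zero n D hφ
  have key : ∀ β : Fin (n + 1) → ℕ, ∃ G : Fn (Fin (n + 1)), SS G ∧
      (dg β = p * D + N → dW D G = cut D 0 p β (Fph n D φ 1)) := by
    intro β
    by_cases hβ : dg β = p * D + N
    · obtain ⟨G, g1, g2, g3⟩ := h β hβ (cut D 0 p β (Fph n D φ 1)) (SS_cut (SS_Fph n D φ 1))
        Sp_cut (dW_cut_zero hF)
      exact ⟨G, g1, fun _ => g3⟩
    · exact ⟨0, SS.zero, fun h => absurd h hβ⟩
  choose G g1 g2 using key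
  let Ψ : SSm (Fin (n + 1)) := ∑ β ∈ Finset.Nat.antidiagonalTuple (n + 1) (p * D + N), ⟨G β, g1 β⟩
  have hag : ∀ a ∈ ExteriorAlgebra.exteriorPower ℂ p (MM n D),
      ∀ g ∈ MvPolynomial.homogeneousSubmodule (Fin (n + 1)) ℂ N,
      φ (a ⊗ₜ[ℂ] g) = psi n D (opD D Ψ) (a ⊗ₜ[ℂ] g) := by
    intro a ha g hg
    refine agree n D (p := p) (N := N) ?_ a ha g hg
    intro w f hw hl hf
    rw [psi_mono, act_wd n D w hw, List.append_nil]
    have h1 : (opD D Ψ).1 w f = ∑ β ∈ Finset.Nat.antidiagonalTuple (n + 1) (p * D + N),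
        cut D 0 p β (Fph n D φ 1) w f := by
      have h2 : opD D Ψ = ∑ β ∈ Finset.Nat.antidiagonalTuple (n + 1) (p * D + N),
          opD D ⟨G β, g1 β⟩ := by
        rw [map_sum]
      rw [h2]
      have h3 : ∀ (s : Finset (Fin (n + 1) → ℕ)) (g : (Fin (n + 1) → ℕ) → SSm (Fin (n + 1))),
          (∑ e ∈ s, g e).1 w f = ∑ e ∈ s, (g e).1 w f := by
        intro s g
        induction s using Finset.induction_on with
        | empty => simp
        | insert a s ha ih => rw [Finset.sum_insert ha, Finset.sum_insert ha, ← ih]; rfl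
      rw [h3]
      apply Finset.sum_congr rfl
      intro β hβ
      have := g2 β (Finset.Nat.mem_antidiagonalTuple.1 hβ)
      exact congrFun (congrFun this w) f
    rw [h1]
    have hβ : md w + f ∈ Finset.Nat.antidiagonalTuple (n + 1) (p * D + N) := by
      rw [Finset.Nat.mem_antidiagonalTuple]
      have h5 := dg_md w (gw_ok n D hw)
      rw [gw_nT n D w hw, hl] at h5
      have h6 := dg_add (md w) f
      rw [hf] at h6
      have h7 : dg (md w + f) = p * D + N := by omega
      exact h7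
    rw [Finset.sum_eq_single (md w + f)]
    · have e1 : cut D 0 p (md w + f) (Fph n D φ 1) w f = Fph n D φ 1 w f :=
        if_pos ⟨by omega, gw_nT n D w hw, rfl, gw_ok n D hw⟩
      rw [e1]
      simp only [Fph, one_mul]
    · intro β _ hne
      exact if_neg (fun h8 => hne h8.2.2.1.symm)
    · intro h9; exact absurd hβ h9
  obtain ⟨z, rfl⟩ := hx
  have h10 : φ ∘ₗ (TensorProduct.map (ExteriorAlgebra.exteriorPower ℂ p (MM n D)).subtype
        (MvPolynomial.homogeneousSubmodule (Fin (n + 1)) ℂ N).subtype) =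
      psi n D (opD D Ψ) ∘ₗ (TensorProduct.map (ExteriorAlgebra.exteriorPower ℂ p (MM n D)).subtype
        (MvPolynomial.homogeneousSubmodule (Fin (n + 1)) ℂ N).subtype) := by
    apply TensorProduct.ext'
    intro a g
    exact hag a.1 a.2 g.1 g.2
  have h11 := LinearMap.congr_fun h10 z
  simp only [LinearMap.comp_apply] at h11
  rw [h11, psi_opD, LinearMap.comp_apply, hKx, map_zero]

end Pool.Agent.H69.VS
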