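import Mathlib

/-!
A numerical contraction estimate.
-/

namespace Pool.Agent.H69.VS

theorem df_mono {a c : ℕ} (h : a ≤ c) (j : ℕ) : a.descFactorial j ≤ c.descFactorial j := by
  induction j with
  | zero => simp
  | succ j ih =>
    rw [Nat.descFactorial_succ, Nat.descFactorial_succ]
    exact Nat.mul_le_mul (by omega) ih

theorem df_pos {c j : ℕ} (h : j ≤ c) : 0 < c.descFactorial j :=
  Nat.pos_of_ne_zero (fun h0 => absurd (Nat.descFactorial_eq_zero_iff_lt.1 h0) (by omega))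

theorem df_lt {a c j : ℕ} (h : a < c) (hj : 1 ≤ j) (hja : j ≤ a) :
    a.descFactorial j < c.descFactorial j := by
  obtain ⟨j, rfl⟩ : ∃ j', j = j' + 1 := ⟨j - 1, by omega⟩
  rw [Nat.descFactorial_succ, Nat.descFactorial_succ]
  have h1 := df_mono h.le j
  have h2 : 0 < c.descFactorial j := df_pos (by omega)
  calc (a - j) * a.descFactorial j ≤ (a - j) * c.descFactorial j := Nat.mul_le_mul_left _ h1
    _ < (c - j) * c.descFactorial j := Nat.mul_lt_mul_of_pos_right (by omega) h2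

/-- the coefficient of the contraction -/
noncomputable def Kc (h c x j : ℕ) : ℝ :=
  if x = 0 ∧ j ≠ 0 then ((h + j).descFactorial j : ℝ) / (c.descFactorial j : ℝ) else 0

theorem Kc_le {h c x j : ℕ} (hx : x = 0) (hj : 1 ≤ j) (hc : h + j ≤ c) :
    Kc h c x j ≤ ((h + j : ℕ) : ℝ) / c := by
  unfold Kc
  rw [if_pos ⟨hx, by omega⟩]
  obtain ⟨j, rfl⟩ : ∃ j', j = j' + 1 := ⟨j - 1, by omega⟩
  obtain ⟨c, rfl⟩ : ∃ c', c = c' + 1 := ⟨c - 1, by omega⟩
  have e1 : h + (j + 1) = (h + j) + 1 := rfl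
  rw [e1, Nat.succ_descFactorial_succ, Nat.succ_descFactorial_succ]
  have h1 : (h + j).descFactorial j ≤ c.descFactorial j := df_mono (by omega) j
  have h2 : 0 < c.descFactorial j := df_pos (by omega)
  have h3 : (0 : ℝ) < (c.descFactorial j : ℝ) := by exact_mod_cast h2
  have h4 : ((h + j).descFactorial j : ℝ) ≤ (c.descFactorial j : ℝ) := by exact_mod_cast h1
  have h5 : (0 : ℝ) < ((c + 1 : ℕ) : ℝ) := by positivity
  push_cast at h5 ⊢
  rw [div_le_div_iff₀ (by positivity) h5]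
  have h6 : (0 : ℝ) ≤ (h : ℝ) + j + 1 := by positivity
  nlinarith [mul_le_mul_of_nonneg_left h4 (mul_nonneg h6 h5.le)]

theorem Kc_lt {h c x j : ℕ} (hx : x = 0) (hj : 2 ≤ j) (hc : h + j < c) :
    Kc h c x j < ((h + j : ℕ) : ℝ) / c := by
  unfold Kc
  rw [if_pos ⟨hx, by omega⟩]
  obtain ⟨j, rfl⟩ : ∃ j', j = j' + 1 := ⟨j - 1, by omega⟩
  obtain ⟨c, rfl⟩ : ∃ c', c = c' + 1 := ⟨c - 1, by omega⟩
  have e1 : h + (j + 1) = (h + j) + 1 := rfl
  rw [e1, Nat.succ_descFactorial_succ, Nat.succ_descFactorial_succ]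
  have h1 : (h + j).descFactorial j < c.descFactorial j := df_lt (by omega) (by omega) (by omega)
  have h2 : 0 < c.descFactorial j := df_pos (by omega)
  have h3 : (0 : ℝ) < (c.descFactorial j : ℝ) := by exact_mod_cast h2
  have h4 : ((h + j).descFactorial j : ℝ) < (c.descFactorial j : ℝ) := by exact_mod_cast h1
  have h5 : (0 : ℝ) < ((c + 1 : ℕ) : ℝ) := by positivity
  push_cast at h5 ⊢
  rw [div_lt_div_iff₀ (by positivity) h5]
  have h6 : (0 : ℝ) < (h : ℝ) + j + 1 := by positivity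
  nlinarith [mul_lt_mul_of_pos_left h4 (mul_pos h6 h5)]

theorem Kc_zero {h c x j : ℕ} (hn : ¬ (x = 0 ∧ j ≠ 0)) : Kc h c x j = 0 := if_neg hn

/-- the contraction -/
theorem contr {e c h x1 x2 x3 y1 y2 y3 j1 j2 j3 : ℕ} (he : 3 ≤ e) (hc : 2 * c = e * (e + 3))
    (h1 : x1 + y1 + j1 = e) (h2 : x2 + y2 + j2 = e) (h3 : x3 + y3 + j3 = e)
    (hh : h = y1 + y2 + y3) (hx : h ≤ x1 + x2 + x3) :
    Kc h c x1 j1 + Kc h c x2 j2 + Kc h c x3 j3 < 1 := by
  have hce : 3 * e ≤ c := by nlinarith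
  have hce2 : 2 * e < c := by omega
  have hcpos : (0 : ℝ) < (c : ℝ) := by
    have : 0 < c := by omega
    exact_mod_cast this
  have tot : ∀ s : ℕ, s ≤ c → (s : ℝ) / c ≤ 1 := by
    intro s hs
    rw [div_le_one hcpos]
    exact_mod_cast hs
  have tot' : ∀ s : ℕ, s < c → (s : ℝ) / c < 1 := by
    intro s hs
    rw [div_lt_one hcpos]
    exact_mod_cast hs
  -- one nonzero term
  have one : ∀ x j, x = 0 → j ≠ 0 → h + j < c → Kc h c x j < 1 := by
    intro x j g1 g2 g3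
    exact lt_of_le_of_lt (Kc_le g1 (by omega) (by omega)) (tot' _ g3)
  -- two nonzero terms
  have two : ∀ x j x' j', x = 0 → j ≠ 0 → x' = 0 → j' ≠ 0 → h + j < c → h + j' < c →
      (h + j) + (h + j') ≤ c → (2 ≤ j ∨ 2 ≤ j') → Kc h c x j + Kc h c x' j' < 1 := by
    intro x j x' j' g1 g2 g3 g4 g5 g6 g7 g8
    have a1 := Kc_le (c := c) (h := h) g1 (by omega : 1 ≤ j) (by omega)
    have a2 := Kc_le (c := c) (h := h) g3 (by omega : 1 ≤ j') (by omega)
    have a3 := tot _ g7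
    have a4 : (((h + j) + (h + j') : ℕ) : ℝ) / c = ((h + j : ℕ) : ℝ) / c + ((h + j' : ℕ) : ℝ) / c := by
      rw [← add_div]; push_cast; ring
    rcases g8 with g8 | g8
    · have a5 := Kc_lt (c := c) (h := h) g1 g8 g5
      linarith
    · have a5 := Kc_lt (c := c) (h := h) g3 g8 g6
      linarith
  by_cases i1 : x1 = 0 ∧ j1 ≠ 0 <;> by_cases i2 : x2 = 0 ∧ j2 ≠ 0 <;>
    by_cases i3 : x3 = 0 ∧ j3 ≠ 0
  · have hh0 : h = 0 := by omega
    have a1 := Kc_lt (c := c) (h := h) i1.1 (by omega : 2 ≤ j1) (by omega)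
    have a2 := Kc_lt (c := c) (h := h) i2.1 (by omega : 2 ≤ j2) (by omega)
    have a3 := Kc_lt (c := c) (h := h) i3.1 (by omega : 2 ≤ j3) (by omega)
    have a4 := tot ((h + j1) + (h + j2) + (h + j3)) (by omega)
    have a5 : (((h + j1) + (h + j2) + (h + j3) : ℕ) : ℝ) / c =
        ((h + j1 : ℕ) : ℝ) / c + ((h + j2 : ℕ) : ℝ) / c + ((h + j3 : ℕ) : ℝ) / c := by
      rw [← add_div, ← add_div]; push_cast; ring
    linarith
  · rw [Kc_zero i3, add_zero]
    exact two _ _ _ _ i1.1 i1.2 i2.1 i2.2 (by omega) (by omega) (by omega) (by omega)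
  · rw [Kc_zero i2, add_zero]
    exact two _ _ _ _ i1.1 i1.2 i3.1 i3.2 (by omega) (by omega) (by omega) (by omega)
  · rw [Kc_zero i2, Kc_zero i3, add_zero, add_zero]
    exact one _ _ i1.1 i1.2 (by omega)
  · rw [Kc_zero i1, zero_add]
    exact two _ _ _ _ i2.1 i2.2 i3.1 i3.2 (by omega) (by omega) (by omega) (by omega)
  · rw [Kc_zero i1, Kc_zero i3, add_zero, zero_add]
    exact one _ _ i2.1 i2.2 (by omega)
  · rw [Kc_zero i1, Kc_zero i2, add_zero, zero_add]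
    exact one _ _ i3.1 i3.2 (by omega)
  · rw [Kc_zero i1, Kc_zero i2, Kc_zero i3]
    norm_num

end Pool.Agent.H69.VS
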