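import Pool.Agent.H69.VS.Skew

/-!
The descent: from the vanishing of the classes of high `eta` degree back to `eta` degree zero
(a highest weight argument with the odd operators).
-/

set_option linter.unusedSectionVars false

namespace Pool.Agent.H69.VS

open scoped BigOperators

variable {σ : Type} [Fintype σ] [DecidableEq σ]

/-- pairs: the part without `eta` and the part with `eta` -/
abbrev Pr (σ : Type) : Type := Fn σ × Fn σ

/-- differential -/
noncomputable def Del (D : ℕ) (X : Pr σ) : Pr σ := (dW D X.1 + hW D X.2, - dW D X.2)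
/-- transpose of `x_i d/d eta` -/
noncomputable def Pp (i : σ) (X : Pr σ) : Pr σ := (pW i X.1, sg (ep i) X.1 - pW i X.2)
/-- transpose of `eta d/dx_k` -/
noncomputable def Qm (k : σ) (X : Pr σ) : Pr σ := (qW k X.1 + ta k X.2, - qW k X.2)
/-- polarization -/
noncomputable def Rr (k i : σ) (X : Pr σ) : Pr σ :=
  (rW k i X.1 + ta k (sg (ep i) X.1), rW k i X.2 + sg (ep i) (ta k X.2))

theorem Pp_Del (D : ℕ) (i : σ) (X : Pr σ) : Pp i (Del D X) = - Del D (Pp i X) := by
  have h1 := pW_dW D i X.1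
  have h2 := pW_dW D i X.2
  refine Prod.ext ?_ ?_
  · simp only [Pp, Del, Prod.fst_neg, pW_add', hW_sub', pW_hW]
    rw [← sub_eq_zero]
    rw [← h1]; abel
  · simp only [Pp, Del, Prod.snd_neg, pW_neg', dW_sub', dW_sg, sg_add, sub_neg_eq_add]
    rw [← sub_eq_zero]
    rw [hW_sg] at h2
    rw [← h2]; abel

theorem Qm_Del (D : ℕ) (k : σ) (X : Pr σ) : Qm k (Del D X) = - Del D (Qm k X) := by
  have h1 := qW_dW D k X.1
  have h2 := qW_dW D k X.2
  have h3 := qW_hW D k X.2
  refine Prod.ext ?_ ?_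
  · simp only [Qm, Del, Prod.fst_neg, qW_add', dW_add', hW_neg', ta_neg]
    rw [← sub_eq_zero]
    have : qW k (dW D X.1) + qW k (hW D X.2) + -ta k (dW D X.2) -
        -(dW D (qW k X.1) + dW D (ta k X.2) + -hW D (qW k X.2)) =
        (qW k (dW D X.1) + dW D (qW k X.1)) +
        (qW k (hW D X.2) + dW D (ta k X.2) - ta k (dW D X.2) - hW D (qW k X.2)) := by abel
    rw [this, h1, h3, add_zero]
  · simp only [Qm, Del, Prod.snd_neg, qW_neg', dW_neg', neg_neg]
    rw [← sub_eq_zero]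
    have : qW k (dW D X.2) - -dW D (qW k X.2) = qW k (dW D X.2) + dW D (qW k X.2) := by abel
    rw [this, h2]

theorem Qm_Pp (k i : σ) (X : Pr σ) : Qm k (Pp i X) + Pp i (Qm k X) = Rr k i X := by
  have h1 := qW_pW i k X.1
  have h2 := qW_pW i k X.2
  refine Prod.ext ?_ ?_
  · simp only [Qm, Pp, Rr, Prod.fst_add, pW_add', ta_sub, pW_ta]
    rw [← h1]; abel
  · simp only [Qm, Pp, Rr, Prod.snd_add, qW_sub', pW_neg', sg_add, qW_sg]
    rw [← h2]; abel

theorem ta_sg_comm {i k : σ} (h : i ≠ k) (F : Fn σ) : ta k (sg (ep i) F) = sg (ep i) (ta k F) := by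
  funext w f
  simp only [ta, sg, Pi.add_apply]
  have h1 : (ep i : σ → ℕ) k = 0 := by simp [ep, h.symm]
  rw [h1, add_zero]
  by_cases hf : f k = 0
  · simp [hf]
  · have : f - ep k + ep i = f + ep i - ep k := by
      funext z
      by_cases hz : z = k
      · subst hz; simp [ep, h.symm]
      · simp [ep, hz]
    rw [this]

theorem Rr_Pp {k i l : σ} (hi : i ≠ k) (hl : l ≠ k) (X : Pr σ) :
    Rr k i (Pp l X) = Pp l (Rr k i X) := by
  refine Prod.ext ?_ ?_
  · simp only [Rr, Pp, pW_add', rW_pW i k l X.1 hi hl, pW_ta, pW_sg]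
  · simp only [Rr, Pp, pW_add', rW_sub', rW_pW i k l X.2 hi hl, pW_ta, pW_sg, rW_sg, ta_sub,
      sg_sub, sg_add]
    have h1 : sg (ep l) (ta k (sg (ep i) X.1)) = sg (ep i) (ta k (sg (ep l) X.1)) := by
      rw [← ta_sg_comm hl, ← ta_sg_comm hi]
      congr 1
      funext w f; simp only [sg]; congr 1; abel
    rw [h1]; abel

/-- data of a pair at homological degree `t`, `eta` degree `m` and weight `α` -/
def SP (D t m : ℕ) (α : σ → ℕ) (X : Pr σ) : Prop :=
  SS X.1 ∧ SS X.2 ∧ Sp D 0 0 t m α X.1 ∧ Sp D 0 1 t m α X.2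

theorem SP.P {D t m : ℕ} {α : σ → ℕ} {X : Pr σ} (i : σ) (h : SP D t m (α + ep i) X) :
    SP D t (m + 1) α (Pp i X) :=
  ⟨h.1.pW i, (h.1.sg _).sub (h.2.1.pW i), h.2.2.1.pW i, (h.2.2.1.sgG i).sub (h.2.2.2.pW i)⟩

theorem SP.Q {D t m : ℕ} {α : σ → ℕ} {X : Pr σ} (k : σ) (h : SP D t (m + 1) α X) :
    SP D t m (α + ep k) (Qm k X) :=
  ⟨(h.1.qW k).add (h.2.1.ta k), (h.2.1.qW k).neg, (h.2.2.1.qW k).add (h.2.2.2.taG k),
    (h.2.2.2.qW k).neg⟩

theorem nk_eq (k : σ) (w : List (Lt σ)) : nk k w = md w k + nT w := by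
  induction w with
  | nil => simp [nk, md, nT]
  | cons x w ih => cases x <;> simp [nk, md, nT, ih] <;> omega

theorem Rr_self {D t m : ℕ} {α : σ → ℕ} {X : Pr σ} (k : σ) (h : SP D t m α X) :
    Rr k k X = ((α k + m : ℕ) : ℂ) • X := by
  refine Prod.ext ?_ ?_
  · funext w f
    have e1 : (Rr k k X).1 w f = rW k k X.1 w f + ta k (sg (ep k) X.1) w f := rfl
    have e2 : (((α k + m : ℕ) : ℂ) • X).1 w f = ((α k + m : ℕ) : ℂ) * X.1 w f := rfl
    rw [e1, e2, rW_self]
    by_cases h0 : X.1 w f = 0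
    · have : ta k (sg (ep k) X.1) w f = 0 := by
        simp only [ta, sg]
        by_cases hf : f k = 0
        · simp [hf]
        · rw [sub_ep_add hf, h0, mul_zero]
      rw [h0, this]; ring
    · obtain ⟨a1, a2, a3, a4⟩ := h.2.2.1 _ _ h0
      have : ta k (sg (ep k) X.1) w f = (f k : ℂ) * X.1 w f := by
        simp only [ta, sg]
        by_cases hf : f k = 0
        · simp [hf]
        · rw [sub_ep_add hf]
      rw [this, nk_eq, ← a3, ← a2]
      simp only [Pi.add_apply]
      push_cast; ring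
  · funext w f
    have e1 : (Rr k k X).2 w f = rW k k X.2 w f + sg (ep k) (ta k X.2) w f := rfl
    have e2 : (((α k + m : ℕ) : ℂ) • X).2 w f = ((α k + m : ℕ) : ℂ) * X.2 w f := rfl
    rw [e1, e2, rW_self]
    have h3 : sg (ep k) (ta k X.2) w f = ((f k : ℂ) + 1) * X.2 w f := by
      simp only [ta, sg]
      have : f + ep k - ep k = f := by funext z; simp
      rw [this]
      simp [ep]
    rw [h3]
    by_cases h0 : X.2 w f = 0
    · rw [h0]; ring
    · obtain ⟨a1, a2, a3, a4⟩ := h.2.2.2 _ _ h0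
      rw [nk_eq, ← a3, ← a2]
      simp only [Pi.add_apply]
      push_cast; ring

/-- boundaries -/
def Bd (D : ℕ) (X : Pr σ) : Prop := ∃ Y : Pr σ, SS Y.1 ∧ SS Y.2 ∧ Del D Y = X

theorem Del_add (D : ℕ) (X Y : Pr σ) : Del D (X + Y) = Del D X + Del D Y := by
  refine Prod.ext ?_ ?_
  · simp only [Del, Prod.fst_add, Prod.snd_add, dW_add', hW_add']; abel
  · simp only [Del, Prod.snd_add, dW_add']; abel

theorem Del_smul (D : ℕ) (c : ℂ) (X : Pr σ) : Del D (c • X) = c • Del D X := by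
  refine Prod.ext ?_ ?_
  · simp only [Del, Prod.smul_fst, Prod.smul_snd, dW_smul', hW_smul', smul_add]
  · simp only [Del, Prod.smul_snd, dW_smul', smul_neg]

theorem Pp_zero (i : σ) : Pp i (0 : Pr σ) = 0 := by
  refine Prod.ext ?_ ?_
  · simp [Pp, pW_zero']
  · funext w f
    simp [Pp, pW_zero', sg]

theorem Pp_neg (i : σ) (X : Pr σ) : Pp i (-X) = - Pp i X := by
  refine Prod.ext ?_ ?_
  · simp [Pp, pW_neg']
  · simp only [Pp, Prod.snd_neg, Prod.fst_neg, pW_neg', sg_neg]; abel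

theorem Qm_zero (i : σ) : Qm i (0 : Pr σ) = 0 := by
  refine Prod.ext ?_ ?_
  · funext w f
    simp [Qm, qW_zero', ta]
  · simp [Qm, qW_zero']

theorem Bd.add {D : ℕ} {X Y : Pr σ} (h : Bd D X) (h' : Bd D Y) : Bd D (X + Y) := by
  obtain ⟨Z, a, b, rfl⟩ := h
  obtain ⟨Z', a', b', rfl⟩ := h'
  exact ⟨Z + Z', a.add a', b.add b', Del_add D Z Z'⟩

theorem Bd.smul {D : ℕ} {X : Pr σ} (h : Bd D X) (c : ℂ) : Bd D (c • X) := by
  obtain ⟨Z, a, b, rfl⟩ := h
  exact ⟨c • Z, a.smul c, b.smul c, Del_smul D c Z⟩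

theorem Bd.neg {D : ℕ} {X : Pr σ} (h : Bd D X) : Bd D (-X) := by
  have := h.smul (-1)
  rwa [neg_one_smul] at this

theorem Bd.P {D : ℕ} {X : Pr σ} (h : Bd D X) (i : σ) : Bd D (Pp i X) := by
  obtain ⟨Z, a, b, rfl⟩ := h
  rw [Pp_Del]
  exact Bd.neg ⟨Pp i Z, a.pW i, (a.sg _).sub (b.pW i), rfl⟩

theorem Bd.Q {D : ℕ} {X : Pr σ} (h : Bd D X) (k : σ) : Bd D (Qm k X) := by
  obtain ⟨Z, a, b, rfl⟩ := h
  rw [Qm_Del]
  exact Bd.neg ⟨Qm k Z, (a.qW k).add (b.ta k), (b.qW k).neg, rfl⟩

/-- apply `Pp` for all indices of a list -/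
noncomputable def uL : List σ → Pr σ → Pr σ
  | [], X => X
  | k :: L, X => Pp k (uL L X)

theorem Rr_uL {k i : σ} (hi : i ≠ k) : ∀ (L : List σ), k ∉ L → ∀ X : Pr σ,
    Rr k i (uL L X) = uL L (Rr k i X)
  | [], _, _ => rfl
  | l :: L, h, X => by
    have hl : l ≠ k := fun e => h (by rw [e]; exact List.mem_cons_self)
    simp only [uL]
    rw [Rr_Pp hi hl, Rr_uL hi L (fun h' => h (List.mem_cons_of_mem _ h'))]

theorem Bd.uL {D : ℕ} : ∀ (L : List σ) {X : Pr σ}, Bd D X → Bd D (VS.uL L X)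
  | [], _, h => h
  | l :: L, _, h => (Bd.uL L h).P l

/-- sum of the unit vectors of a list -/
def sE (L : List σ) : σ → ℕ := (L.map ep).sum

theorem sE_not_mem (L : List σ) (k : σ) (h : k ∉ L) : sE L k = 0 := by
  induction L with
  | nil => rfl
  | cons l L ih =>
    have hl : k ≠ l := fun e => h (by rw [e]; exact List.mem_cons_self)
    have := ih (fun h' => h (List.mem_cons_of_mem _ h'))
    simp only [sE, List.map_cons, List.sum_cons, Pi.add_apply] at this ⊢
    rw [this]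
    simp [ep, hl]

section main
variable {D t : ℕ} {lam : σ → ℕ} {v : Fn σ}

theorem claimA (hmax : ∀ (μ : σ → ℕ) (j k : σ), lam = μ + ep k → j ≠ k → lam k ≤ lam j →
      Van D t (μ + ep j))
    (hv : SS v) (sv : Sp D 0 0 t 0 lam v) (dv : dW D v = 0) :
    ∀ (L : List σ), L.Nodup → ∀ (α : σ → ℕ), lam = α + sE L →
      SP D t L.length α (uL L (v, 0)) ∧ Del D (uL L (v, 0)) = 0 ∧
      ∀ j, j ∉ L → (∀ k ∈ L, lam k ≤ lam j) → Bd D (Qm j (uL L (v, 0)))
  | [], _, α, hα => by
    have hα' : lam = α := by rw [hα]; simp [sE]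
    subst hα'
    refine ⟨⟨hv, SS.zero, sv, Sp.zero⟩, ?_, ?_⟩
    · refine Prod.ext ?_ ?_
      · simp [uL, Del, dv, hW_zero']
      · simp [uL, Del, dW_zero']
    · intro j _ _
      have : Qm j (uL [] (v, 0)) = 0 := by
        refine Prod.ext ?_ ?_
        · simp only [uL, Qm, sv.qW_zero j]
          funext w f; simp [ta]
        · simp [uL, Qm, qW_zero']
      rw [this]
      exact ⟨0, SS.zero, SS.zero, by
        refine Prod.ext ?_ ?_
        · simp [Del, dW_zero', hW_zero']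
        · simp [Del, dW_zero']⟩
  | k :: L, hnd, α, hα => by
    have hnd' := List.nodup_cons.1 hnd
    have hα' : lam = (α + ep k) + sE L := by
      rw [hα]; simp only [sE, List.map_cons, List.sum_cons]; abel
    obtain ⟨h1, h2, h3⟩ := claimA hmax hv sv dv L hnd'.2 (α + ep k) hα'
    refine ⟨h1.P k, ?_, ?_⟩
    · have := Pp_Del D k (uL L (v, 0))
      rw [h2, Pp_zero] at this
      have h4 : Del D (Pp k (uL L (v, 0))) = 0 := by
        rw [← neg_eq_zero]; exact this.symm
      exact h4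
    · intro j hj hle
      have hjk : k ≠ j := fun e => hj (by rw [e]; exact List.mem_cons_self)
      have hjL : j ∉ L := fun h' => hj (List.mem_cons_of_mem _ h')
      have h5 := Qm_Pp j k (uL L (v, 0))
      have h6 : Qm j (uL (k :: L) (v, 0)) = Rr j k (uL L (v, 0)) + - Pp k (Qm j (uL L (v, 0))) := by
        rw [← h5]; simp only [uL]; abel
      rw [h6]
      refine Bd.add ?_ ((h3 j hjL (fun k' hk' => hle k' (List.mem_cons_of_mem _ hk'))).P k).neg
      rw [Rr_uL hjk L hjL]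
      apply Bd.uL
      -- the base class
      have h7 := Qm_Pp j k ((v, 0) : Pr σ)
      have h8 : Qm j ((v, 0) : Pr σ) = 0 := by
        refine Prod.ext ?_ ?_
        · simp only [Qm, sv.qW_zero j]
          funext w f; simp [ta]
        · simp [Qm, qW_zero']
      rw [h8, Pp_zero, add_zero] at h7
      rw [← h7]
      have hsE : lam = (α + sE L) + ep k := by rw [hα']; abel
      have hSP : SP D t 0 ((α + sE L) + ep k) ((v, 0) : Pr σ) := by
        rw [← hsE]; exact ⟨hv, SS.zero, sv, Sp.zero⟩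
      have hSP2 := (hSP.P k).Q j
      have hvan := hmax (α + sE L) j k hsE hjk.symm (hle k List.mem_cons_self)
      have hz2 : (Qm j (Pp k ((v, 0) : Pr σ))).2 = 0 := by
        funext w f
        by_contra hne
        have := (hSP2.2.2.2 w f hne).2.1
        omega
      have hD0 : Del D ((v, 0) : Pr σ) = 0 := by
        refine Prod.ext ?_ ?_
        · simp [Del, dv, hW_zero']
        · simp [Del, dW_zero']
      have hDel : Del D (Qm j (Pp k ((v, 0) : Pr σ))) = 0 := by
        have e1 := Qm_Del D j (Pp k ((v, 0) : Pr σ))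
        have e2 := Pp_Del D k ((v, 0) : Pr σ)
        rw [hD0, Pp_zero] at e2
        have e3 : Del D (Pp k ((v, 0) : Pr σ)) = 0 := by
          rw [← neg_eq_zero]; exact e2.symm
        rw [e3, Qm_zero] at e1
        rw [← neg_eq_zero]; exact e1.symm
      have hd1 : dW D (Qm j (Pp k ((v, 0) : Pr σ))).1 = 0 := by
        have := congrArg Prod.fst hDel
        simp only [Del, hz2, hW_zero', add_zero] at this
        exact this
      obtain ⟨F', f1, f2, f3⟩ := hvan _ hSP2.1 hSP2.2.2.1 hd1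
      refine ⟨(F', 0), f1, SS.zero, ?_⟩
      refine Prod.ext ?_ ?_
      · simp only [Del, hW_zero', add_zero, f3]
      · simp only [Del, dW_zero', neg_zero, hz2]

theorem claimB (hmax : ∀ (μ : σ → ℕ) (j k : σ), lam = μ + ep k → j ≠ k → lam k ≤ lam j →
      Van D t (μ + ep j))
    (hv : SS v) (sv : Sp D 0 0 t 0 lam v) (dv : dW D v = 0) :
    ∀ (L : List σ), L.Nodup → L.Pairwise (fun a b => lam b ≤ lam a) → (∀ k ∈ L, lam k ≠ 0) →
      ∀ (α : σ → ℕ), lam = α + sE L → Bd D (uL L (v, 0)) → Bd D ((v, 0) : Pr σ)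
  | [], _, _, _, _, _, h => h
  | k :: L, hnd, hpw, hpos, α, hα, h => by
    have hnd' := List.nodup_cons.1 hnd
    have hpw' := List.pairwise_cons.1 hpw
    have hα' : lam = (α + ep k) + sE L := by
      rw [hα]; simp only [sE, List.map_cons, List.sum_cons]; abel
    obtain ⟨h1, h2, h3⟩ := claimA hmax hv sv dv L hnd'.2 (α + ep k) hα'
    refine claimB hmax hv sv dv L hnd'.2 hpw'.2 (fun k' hk' => hpos k' (List.mem_cons_of_mem _ hk'))
      (α + ep k) hα' ?_
    have h4 := Qm_Pp k k (uL L (v, 0))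
    rw [Rr_self k h1] at h4
    have h5 : Bd D (Qm k (Pp k (uL L (v, 0))) + Pp k (Qm k (uL L (v, 0)))) :=
      (h.Q k).add ((h3 k hnd'.1 (fun k' hk' => hpw'.1 k' hk')).P k)
    rw [h4] at h5
    have hk : (α + ep k) k = lam k := by
      rw [hα']
      simp only [Pi.add_apply]
      rw [sE_not_mem L k hnd'.1, add_zero]
    have hne : (((α + ep k) k + L.length : ℕ) : ℂ) ≠ 0 := by
      rw [hk]
      have := hpos k List.mem_cons_self
      exact_mod_cast (by omega : lam k + L.length ≠ 0)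
    have h6 := h5.smul ((((α + ep k) k + L.length : ℕ) : ℂ)⁻¹)
    rw [smul_smul, inv_mul_cancel₀ hne, one_smul] at h6
    exact h6

end main

/-- the part of type `(t, β)` -/
noncomputable def cut (D s t : ℕ) (β : σ → ℕ) (F : Fn σ) : Fn σ := by
  classical
  exact fun w f =>
    if w.length + s = t ∧ nT w = 0 ∧ md w + f = β ∧ ∀ x ∈ w, okL D x then F w f else 0

theorem SS_cut {D s t : ℕ} {β : σ → ℕ} {F : Fn σ} (h : SS F) : SS (cut D s t β F) := by
  intro u x y v f
  have h1 : (u ++ x :: y :: v).length = (u ++ y :: x :: v).length := by simp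
  have h2 : nT (u ++ x :: y :: v) = nT (u ++ y :: x :: v) := by
    rw [nT_append, nT_append]; cases x <;> cases y <;> simp [nT]
  have h3 : md (u ++ x :: y :: v) = md (u ++ y :: x :: v) := by
    rw [md_append, md_append]; cases x <;> cases y <;> simp only [md] <;> abel
  have h4 : (∀ z ∈ u ++ x :: y :: v, okL D z) ↔ (∀ z ∈ u ++ y :: x :: v, okL D z) := by
    constructor <;> intro h z hz <;> apply h <;> simp only [List.mem_append, List.mem_cons] at hz ⊢ <;>
      tauto
  have h5 : ((u ++ x :: y :: v).length + s = t ∧ nT (u ++ x :: y :: v) = 0 ∧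
      md (u ++ x :: y :: v) + f = β ∧ ∀ z ∈ u ++ x :: y :: v, okL D z) ↔
      ((u ++ y :: x :: v).length + s = t ∧ nT (u ++ y :: x :: v) = 0 ∧
      md (u ++ y :: x :: v) + f = β ∧ ∀ z ∈ u ++ y :: x :: v, okL D z) := by
    rw [h1, h2, h3, h4]
  by_cases h6 : ((u ++ x :: y :: v).length + s = t ∧ nT (u ++ x :: y :: v) = 0 ∧
      md (u ++ x :: y :: v) + f = β ∧ ∀ z ∈ u ++ x :: y :: v, okL D z)
  · have e1 : cut D s t β F (u ++ x :: y :: v) f = F (u ++ x :: y :: v) f := if_pos h6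
    have e2 : cut D s t β F (u ++ y :: x :: v) f = F (u ++ y :: x :: v) f := if_pos (h5.1 h6)
    rw [e1, e2]
    exact h u x y v f
  · have e1 : cut D s t β F (u ++ x :: y :: v) f = 0 := if_neg h6
    have e2 : cut D s t β F (u ++ y :: x :: v) f = 0 := if_neg (fun h7 => h6 (h5.2 h7))
    rw [e1, e2, mul_zero]

theorem Sp_cut {D s t : ℕ} {β : σ → ℕ} {F : Fn σ} : Sp D s 0 t 0 β (cut D s t β F) := by
  intro w f hne
  by_cases h : (w.length + s = t ∧ nT w = 0 ∧ md w + f = β ∧ ∀ x ∈ w, okL D x)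
  · exact ⟨h.1, by rw [h.2.1], h.2.2.1, h.2.2.2⟩
  · exact absurd (if_neg h) hne

theorem dW_cut {D t : ℕ} {β : σ → ℕ} {F v : Fn σ} {G : Fn σ} (hv : Sp D 0 0 t 0 β v)
    (h : dW D F + hW D G = v) : dW D (cut D 1 t β F) = v := by
  funext w f
  by_cases hw : w.length + 0 = t ∧ nT w + 0 = 0 ∧ md w + f = β ∧ ∀ x ∈ w, okL D x
  · have h1 : hW D G w f = 0 := by
      by_contra hne
      obtain ⟨u, y, v, rfl, _, _⟩ := hW_ne D w G f hne
      have := hw.2.1
      simp only [nT_append, nT] at this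
      omega
    have h2 : dW D (cut D 1 t β F) w f = dW D F w f := by
      by_contra h3
      have h4 : dW D (F - cut D 1 t β F) w f ≠ 0 := by
        rw [dW_sub']; simp only [Pi.sub_apply]; intro h5; apply h3
        rw [sub_eq_zero] at h5; exact h5.symm
      obtain ⟨u, e, v, rfl, h5, h6⟩ := dW_ne D w _ f h4
      apply h6
      have h7 : (u ++ v).length + 1 = t ∧ nT (u ++ v) = 0 ∧ md (u ++ v) + (f + e) = β ∧
          ∀ x ∈ u ++ v, okL D x := by
        obtain ⟨b1, b2, b3, b4⟩ := hw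
        refine ⟨?_, ?_, ?_, ?_⟩
        · simp only [List.length_append, List.length_cons] at b1 ⊢; omega
        · simp only [nT_append, nT] at b2 ⊢; omega
        · rw [← b3]; simp only [md_append, md]; abel
        · intro x hx
          apply b4
          simp only [List.mem_append, List.mem_cons] at hx ⊢
          tauto
      have e1 : cut D 1 t β F (u ++ v) (f + e) = F (u ++ v) (f + e) := if_pos h7
      simp only [Pi.sub_apply, e1, sub_self]
    rw [h2, ← h]
    simp [h1]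
  · have h1 : v w f = 0 := by
      by_contra hne
      exact hw (hv w f hne)
    rw [h1]
    by_contra hne
    have h8 := Sp.dW (Sp_cut (D := D) (s := 1) (t := t) (β := β) (F := F))
    have := h8 w f hne
    apply hw
    refine ⟨by omega, this.2.1, this.2.2.1, this.2.2.2⟩

end Pool.Agent.H69.VS
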