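import Pool.Agent.H69.VS.Desc

/-!
The polarizations between two indices of the list commute with `uL`.
-/

set_option linter.unusedSectionVars false

namespace Pool.Agent.H69.VS

open scoped BigOperators

variable {σ : Type} [Fintype σ] [DecidableEq σ]

theorem pW_pW (i l : σ) (F : Fn σ) : pW i (pW l F) = - pW l (pW i F) := by
  rw [← add_eq_zero_iff_eq_neg]
  refine rec_zero (fun F => pW i (pW l F) + pW l (pW i F)) (by simp) ?_ F
  intro F x
  cases x with
  | T y =>
    refine ⟨1, ?_⟩
    simp only [Af_add, AT_pW, AE_pW, pW_neg', pW_add']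
    module
  | E e =>
    refine ⟨1, ?_⟩
    simp only [Af_add, AE_pW, pW_neg']
    module

theorem rW_pW_self {i k : σ} (hi : i ≠ k) (F : Fn σ) :
    rW k i (pW k F) = pW k (rW k i F) - pW i F := by
  have key : rW k i (pW k F) - pW k (rW k i F) + pW i F = 0 := by
    refine rec_zero (fun F => rW k i (pW k F) - pW k (rW k i F) + pW i F) (by simp) ?_ F
    intro F x
    cases x with
    | T y =>
      refine ⟨1, ?_⟩
      have h1 : (y + ep i) k = y k := by simp [ep, Pi.single_apply, hi.symm]
      have h2 : (y + ep k) k = y k + 1 := by simp [ep, Pi.single_apply]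
      have h3 : ((y k : ℕ) : ℂ) • Af (Lt.E (y + ep i - ep k + ep k)) F =
          ((y k : ℕ) : ℂ) • Af (Lt.E (y + ep i)) F := by
        by_cases hy : y k = 0
        · simp [hy]
        · congr 3
          apply sub_ep_add
          rw [h1]; exact hy
      have h4 : y + ep k - ep k + ep i = y + ep i := by
        funext z; simp
      simp only [Af_add, Af_sub, AT_rW, AT_pW, AE_rW, rW_add', rW_neg', pW_add', pW_smul', h1, h2,
        smul_add, smul_neg, h3, h4]
      push_cast
      module
    | E e =>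
      refine ⟨-1, ?_⟩
      simp only [Af_add, Af_sub, AE_rW, AE_pW, rW_neg', pW_add', pW_smul']
      module
  rw [← sub_eq_zero, ← key]; abel

theorem ta_sg_self (k : σ) (F : Fn σ) : ta k (sg (ep k) F) = sg (ep k) (ta k F) - F := by
  have h := sg_ta k F (ep k)
  have h1 : ((ep k : σ → ℕ) k : ℂ) = 1 := by simp [ep]
  have h2 : (ep k : σ → ℕ) - ep k = 0 := by funext z; simp
  have h3 : sg (0 : σ → ℕ) F = F := by funext w f; simp [sg]
  rw [h1, h2, h3, one_smul] at h
  rw [eq_sub_iff_add_eq, add_comm]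
  exact (sub_eq_iff_eq_add.1 h).symm

theorem Pp_Pp (i l : σ) (X : Pr σ) : Pp i (Pp l X) = - Pp l (Pp i X) := by
  refine Prod.ext ?_ ?_
  · simp only [Pp, Prod.fst_neg]
    exact pW_pW i l X.1
  · simp only [Pp, Prod.snd_neg, pW_sub', sg_sub, pW_sg, pW_pW i l X.2]
    abel

theorem Rr_Pp_self {i k : σ} (hi : i ≠ k) (X : Pr σ) :
    Rr k i (Pp k X) = Pp k (Rr k i X) - Pp i X := by
  refine Prod.ext ?_ ?_
  · simp only [Rr, Pp, Prod.fst_sub, pW_add', rW_pW_self hi, pW_ta, pW_sg]
    abel
  · simp only [Rr, Pp, Prod.snd_sub, pW_add', rW_sub', rW_pW_self hi, pW_ta, pW_sg, rW_sg, ta_sub,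
      sg_sub, sg_add, ta_sg_self]
    have h1 : sg (ep k) (ta k (sg (ep i) X.1)) = sg (ep i) (sg (ep k) (ta k X.1)) := by
      rw [ta_sg_comm hi]
      funext w f; simp only [sg]; congr 1; abel
    rw [h1]; abel

theorem Pp_self (i : σ) (X : Pr σ) : Pp i (Pp i X) = 0 := by
  have h2 := Pp_Pp i i X
  have h3 : (2 : ℂ) • Pp i (Pp i X) = 0 := by
    rw [two_smul]; nth_rewrite 1 [h2]; exact neg_add_cancel _
  exact (smul_eq_zero.1 h3).resolve_left two_ne_zero

theorem Pp_sub (i : σ) (X Y : Pr σ) : Pp i (X - Y) = Pp i X - Pp i Y := by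
  refine Prod.ext ?_ ?_
  · simp only [Pp, Prod.fst_sub, pW_sub']
  · simp only [Pp, Prod.fst_sub, Prod.snd_sub, pW_sub', sg_sub]; abel

theorem Pp_uL_mem {i : σ} : ∀ {L : List σ}, i ∈ L → ∀ X : Pr σ, Pp i (uL L X) = 0
  | [], h, _ => absurd h (by simp)
  | l :: L, h, X => by
    simp only [uL]
    rw [Pp_Pp]
    by_cases hl : i ∈ L
    · rw [Pp_uL_mem hl, Pp_zero, neg_zero]
    · have : i = l := by
        rcases List.mem_cons.1 h with h | h
        · exact h
        · exact absurd h hl
      subst this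
      rw [Pp_self, neg_zero]

theorem Pp_Rr_uL {k i : σ} (hki : i ≠ k) : ∀ {L : List σ}, L.Nodup → k ∈ L → ∀ X : Pr σ,
    Pp i (Rr k i (uL L X)) = Pp i (uL L (Rr k i X))
  | [], _, h, _ => absurd h (by simp)
  | l :: L, hL, hk, X => by
    have hL' := List.nodup_cons.1 hL
    simp only [uL]
    by_cases hl : l = k
    · subst hl
      rw [Rr_Pp_self hki, Rr_uL hki L hL'.1, Pp_sub, Pp_self, sub_zero]
    · have hkL : k ∈ L := by
        rcases List.mem_cons.1 hk with h | h
        · exact absurd h.symm hl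
        · exact h
      rw [Rr_Pp hki hl, Pp_Pp i l, Pp_Rr_uL hki hL'.2 hkL, Pp_Pp i l]

theorem Rr_uL_mem {k i : σ} (hki : i ≠ k) : ∀ {L : List σ}, L.Nodup → k ∈ L → i ∈ L →
    ∀ X : Pr σ, Rr k i (uL L X) = uL L (Rr k i X)
  | [], _, h, _, _ => absurd h (by simp)
  | l :: L, hL, hk, hi, X => by
    have hL' := List.nodup_cons.1 hL
    simp only [uL]
    by_cases hl : l = k
    · subst hl
      have hiL : i ∈ L := by
        rcases List.mem_cons.1 hi with h | h
        · exact absurd h hki
        · exact h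
      rw [Rr_Pp_self hki, Pp_uL_mem hiL, sub_zero, Rr_uL hki L hL'.1]
    · have hkL : k ∈ L := by
        rcases List.mem_cons.1 hk with h | h
        · exact absurd h.symm hl
        · exact h
      rw [Rr_Pp hki hl]
      by_cases hil : i = l
      · subst hil
        exact Pp_Rr_uL hki hL'.2 hkL X
      · congr 1
        have hiL : i ∈ L := by
          rcases List.mem_cons.1 hi with h | h
          · exact absurd h hil
          · exact h
        exact Rr_uL_mem hki hL'.2 hkL hiL X

end Pool.Agent.H69.VS
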