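import Pool.Agent.H69.VS.Desc

/-!
The induction over the weights: if the skewed groups vanish, then only weights with few rows
can occur.
-/

set_option linter.unusedSectionVars false

namespace Pool.Agent.H69.VS

open scoped BigOperators

variable {σ : Type} [Fintype σ] [DecidableEq σ]

/-- sum of the squares -/
def sq (β : σ → ℕ) : ℕ := ∑ i, β i ^ 2

theorem le_dg (β : σ → ℕ) (i : σ) : β i ≤ dg β :=
  Finset.single_le_sum (f := β) (fun _ _ => Nat.zero_le _) (Finset.mem_univ i)

theorem sq_le (β : σ → ℕ) : sq β ≤ dg β ^ 2 := by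
  have : sq β ≤ ∑ i, β i * dg β := by
    apply Finset.sum_le_sum
    intro i _
    rw [pow_two]
    exact Nat.mul_le_mul_left _ (le_dg β i)
  rw [← Finset.sum_mul] at this
  rw [pow_two]; exact this

theorem sq_add_ep (μ : σ → ℕ) (k : σ) : sq (μ + ep k) = sq μ + (2 * μ k + 1) := by
  have h1 : ∀ i, (μ + ep k) i ^ 2 = μ i ^ 2 + (if i = k then 2 * μ i + 1 else 0) := by
    intro i
    by_cases h : i = k
    · subst h; simp [ep]; ring
    · simp [ep, h]
  unfold sq
  rw [Finset.sum_congr rfl (fun i _ => h1 i), Finset.sum_add_distrib]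
  simp

/-- induction over the weights -/
theorem Van_ind {D t N : ℕ}
    (P : ∀ β : σ → ℕ, dg β = N → (∀ μ : σ → ℕ, dg μ = N → sq β < sq μ → Van D t μ) → Van D t β) :
    ∀ β : σ → ℕ, dg β = N → Van D t β := by
  have key : ∀ (n : ℕ) (β : σ → ℕ), dg β = N → N ^ 2 - sq β = n → Van D t β := by
    intro n
    induction n using Nat.strong_induction_on with
    | _ n ih =>
      intro β hβ hn
      apply P β hβ
      intro μ hμ hlt
      have h1 := sq_le μ
      rw [hμ] at h1
      exact ih (N ^ 2 - sq μ) (by omega) μ hμ rfl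
  exact fun β hβ => key _ β hβ rfl

theorem hmax_of {D t : ℕ} {lam : σ → ℕ}
    (h : ∀ μ : σ → ℕ, dg μ = dg lam → sq lam < sq μ → Van D t μ) :
    ∀ (μ : σ → ℕ) (j k : σ), lam = μ + ep k → j ≠ k → lam k ≤ lam j → Van D t (μ + ep j) := by
  intro μ j k hl hjk hle
  apply h
  · rw [hl, dg_add, dg_add, dg_ep, dg_ep]
  · rw [hl, sq_add_ep, sq_add_ep]
    rw [hl] at hle
    have h1 : (μ + ep k) k = μ k + 1 := by simp [ep]
    have h2 : (μ + ep k) j = μ j := by simp [ep, hjk]
    rw [h1, h2] at hle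
    omega

theorem dg_sE (L : List σ) : dg (sE L) = L.length := by
  induction L with
  | nil => simp [sE, dg]
  | cons l L ih =>
    simp only [sE, List.map_cons, List.sum_cons, List.length_cons] at ih ⊢
    rw [dg_add, ih, dg_ep]; omega

theorem sE_le (L : List σ) (hnd : L.Nodup) (k : σ) : sE L k ≤ 1 := by
  induction L with
  | nil => simp [sE]
  | cons l L ih =>
    have hnd' := List.nodup_cons.1 hnd
    by_cases h : k = l
    · subst h
      have h1 := sE_not_mem L k hnd'.1
      simp only [sE, List.map_cons, List.sum_cons, Pi.add_apply] at h1 ⊢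
      rw [h1]; simp [ep]
    · have := ih hnd'.2
      simp only [sE, List.map_cons, List.sum_cons, Pi.add_apply] at this ⊢
      have h2 : (ep l : σ → ℕ) k = 0 := by simp [ep, h]
      rw [h2, zero_add]; exact this

/-- support -/
def supp (β : σ → ℕ) : Finset σ := Finset.univ.filter (fun i => β i ≠ 0)

theorem exists_list (β : σ → ℕ) (m : ℕ) (h : m ≤ (supp β).card) :
    ∃ L : List σ, L.Nodup ∧ L.Pairwise (fun a b => β b ≤ β a) ∧ (∀ k ∈ L, β k ≠ 0) ∧
      L.length = m := by
  obtain ⟨s, hs, hc⟩ := Finset.exists_subset_card_eq h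
  have hp := List.perm_insertionSort (fun a b => β b ≤ β a) s.toList
  haveI : Std.Total (fun a b : σ => β b ≤ β a) := ⟨fun a b => le_total _ _⟩
  haveI : IsTrans σ (fun a b : σ => β b ≤ β a) := ⟨fun a b c h1 h2 => le_trans h2 h1⟩
  refine ⟨s.toList.insertionSort (fun a b => β b ≤ β a), ?_, ?_, ?_, ?_⟩
  · exact hp.nodup_iff.2 s.nodup_toList
  · exact List.pairwise_insertionSort (fun a b => β b ≤ β a) s.toList
  · intro k hk
    have h1 : k ∈ s := Finset.mem_toList.1 (hp.mem_iff.1 hk)
    have h2 := hs h1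
    simp only [supp, Finset.mem_filter] at h2
    exact h2.2
  · rw [hp.length_eq, Finset.length_toList, hc]

/-- row bound at one weight -/
theorem Van_row1 {D t j m : ℕ} {lam : σ → ℕ} (hdg : dg lam = t * D + j)
    (hV1 : ∀ (r : ℕ) (β : σ → ℕ), r + m = t → dg β + 1 = r * D + j → Van D r β)
    (hV0 : ∀ (r : ℕ) (β : σ → ℕ), r + (m + 1) = t → dg β = r * D + j → Van D r β)
    (hs : m + 1 ≤ (supp lam).card)
    (h : ∀ μ : σ → ℕ, dg μ = dg lam → sq lam < sq μ → Van D t μ) : Van D t lam := by
  obtain ⟨L, l1, l2, l3, l4⟩ := exists_list lam (m + 1) hs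
  intro v hv sv dv
  have hmax := hmax_of h
  have hα : lam = (lam - sE L) + sE L := by
    funext k
    simp only [Pi.add_apply, Pi.sub_apply]
    by_cases hk : k ∈ L
    · have h1 := sE_le L l1 k
      have h2 := l3 k hk
      omega
    · rw [sE_not_mem L k hk]; omega
  have hdα : dg (lam - sE L) + (m + 1) = t * D + j := by
    have := dg_add (lam - sE L) (sE L)
    rw [← hα, dg_sE, l4, hdg] at this
    exact this.symm
  obtain ⟨h1, h2, h3⟩ := claimA hmax hv sv dv L l1 (lam - sE L) hα
  rw [l4] at h1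
  have hb : Bd D (uL L (v, 0)) := by
    obtain ⟨F', G', a1, a2, a3, a4⟩ := skew (D := D) (t := t) (m := m) (α := lam - sE L)
      h1.1 h1.2.1 h1.2.2.1 h1.2.2.2 (congrArg Prod.fst h2)
      (by
        have := congrArg Prod.snd h2
        simp only [Del, Prod.snd_zero, neg_eq_zero] at this
        exact this)
      (by
        intro r β hr hβ
        apply hV1 r β hr
        have h5 : t * D = r * D + m * D := by rw [← hr]; ring
        omega)
      (by
        intro r β hr hβ
        apply hV0 r β hr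
        have h5 : t * D = r * D + (m + 1) * D := by rw [← hr]; ring
        omega)
    exact ⟨(F', G'), a1, a2, Prod.ext a3 a4⟩
  obtain ⟨Y, y1, y2, y3⟩ := claimB hmax hv sv dv L l1 l2 l3 (lam - sE L) hα hb
  refine ⟨cut D 1 t lam Y.1, SS_cut y1, Sp_cut, ?_⟩
  exact dW_cut sv (congrArg Prod.fst y3)

/-- row bound -/
theorem Van_rows {D t j m : ℕ}
    (hV1 : ∀ (r : ℕ) (β : σ → ℕ), r + m = t → dg β + 1 = r * D + j → Van D r β)
    (hV0 : ∀ (r : ℕ) (β : σ → ℕ), r + (m + 1) = t → dg β = r * D + j → Van D r β)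
    (hs : ∀ β : σ → ℕ, (supp β).card ≤ m → dg β = t * D + j → Van D t β) :
    ∀ β : σ → ℕ, dg β = t * D + j → Van D t β := by
  apply Van_ind
  intro β hβ h
  by_cases hc : (supp β).card ≤ m
  · exact hs β hc hβ
  · exact Van_row1 hβ hV1 hV0 (by omega) (by rw [hβ]; exact h)

end Pool.Agent.H69.VS
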