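import Mathlib

/-!
Words of super letters and the operators on functions of words.

`E e` is the odd letter of the monomial `x^e`, `T y` is the even letter of `eta * x^y`
(`eta` is an odd variable). Functions on words (with a remaining monomial `f`) are the cochains.
-/

set_option linter.unusedSectionVars false

namespace Pool.Agent.H69.VS

open scoped BigOperators

variable {σ : Type} [Fintype σ] [DecidableEq σ]

/-- letters -/
inductive Lt (σ : Type) : Type
  | T (y : σ → ℕ) : Lt σ
  | E (e : σ → ℕ) : Lt σ

/-- functions of a word and a monomial -/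
abbrev Fn (σ : Type) : Type := List (Lt σ) → (σ → ℕ) → ℂ

/-- degree of an exponent vector -/
def dg (e : σ → ℕ) : ℕ := ∑ i, e i

/-- unit vector -/
def ep (i : σ) : σ → ℕ := Pi.single i 1

/-- put the letter `x` in front -/
def Af (x : Lt σ) (F : Fn σ) : Fn σ := fun w f => F (x :: w) f

/-- the even part of the differential -/
def dW (D : ℕ) : Fn σ → Fn σ
  | _, [], _ => 0
  | F, Lt.T y :: w, f => dW D (Af (Lt.T y) F) w f
  | F, Lt.E e :: w, f => (if dg e = D then F w (f + e) else 0) - dW D (Af (Lt.E e) F) w f

/-- the `eta` part of the differential -/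
def hW (D : ℕ) : Fn σ → Fn σ
  | _, [], _ => 0
  | F, Lt.T y :: w, f => (if dg y + 1 = D then F w (f + y) else 0) + hW D (Af (Lt.T y) F) w f
  | F, Lt.E e :: w, f => hW D (Af (Lt.E e) F) w f

/-- transpose of `x_i d/d eta` on words -/
def pW (i : σ) : Fn σ → Fn σ
  | _, [], _ => 0
  | F, Lt.T y :: w, f => - F (Lt.E (y + ep i) :: w) f + pW i (Af (Lt.T y) F) w f
  | F, Lt.E e :: w, f => - pW i (Af (Lt.E e) F) w f

/-- transpose of `eta d/dx_k` on words -/
def qW (k : σ) : Fn σ → Fn σ
  | _, [], _ => 0
  | F, Lt.T y :: w, f => qW k (Af (Lt.T y) F) w f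
  | F, Lt.E e :: w, f => - ((e k : ℂ) * F (Lt.T (e - ep k) :: w) f) - qW k (Af (Lt.E e) F) w f

/-- the anticommutator of `qW k` and `pW i` -/
def rW (k i : σ) : Fn σ → Fn σ
  | _, [], _ => 0
  | F, Lt.T y :: w, f =>
      (((y + ep i) k : ℕ) : ℂ) * F (Lt.T (y + ep i - ep k) :: w) f + rW k i (Af (Lt.T y) F) w f
  | F, Lt.E e :: w, f =>
      ((e k : ℕ) : ℂ) * F (Lt.E (e - ep k + ep i) :: w) f + rW k i (Af (Lt.E e) F) w f

/-- shift of the monomial -/
def sg (g : σ → ℕ) (F : Fn σ) : Fn σ := fun w f => F w (f + g)

/-- transpose of the derivative in the remaining monomial -/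
def ta (k : σ) (F : Fn σ) : Fn σ := fun w f => (f k : ℂ) * F w (f - ep k)

section lin

variable (D : ℕ) (i k : σ) (F G : Fn σ) (c : ℂ)

theorem Af_add (x : Lt σ) : Af x (F + G) = Af x F + Af x G := rfl
theorem Af_sub (x : Lt σ) : Af x (F - G) = Af x F - Af x G := rfl
theorem Af_neg (x : Lt σ) : Af x (-F) = - Af x F := rfl
theorem Af_smul (x : Lt σ) : Af x (c • F) = c • Af x F := rfl
theorem Af_zero (x : Lt σ) : Af x (0 : Fn σ) = 0 := rfl
theorem Af_sg (x : Lt σ) (g : σ → ℕ) : Af x (sg g F) = sg g (Af x F) := rfl
theorem Af_ta (x : Lt σ) : Af x (ta k F) = ta k (Af x F) := rfl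

theorem dW_add (w : List (Lt σ)) (f : σ → ℕ) : dW D (F + G) w f = dW D F w f + dW D G w f := by
  induction w generalizing F G f with
  | nil => simp [dW]
  | cons x w ih =>
    cases x with
    | T y => simp only [dW, Af_add, ih]
    | E e =>
      simp only [dW, Af_add, ih, Pi.add_apply]
      split_ifs <;> ring

theorem dW_smul (w : List (Lt σ)) (f : σ → ℕ) : dW D (c • F) w f = c * dW D F w f := by
  induction w generalizing F f with
  | nil => simp [dW]
  | cons x w ih =>
    cases x with
    | T y => simp only [dW, Af_smul, ih]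
    | E e =>
      simp only [dW, Af_smul, ih, Pi.smul_apply, smul_eq_mul]
      split_ifs <;> ring

theorem hW_add (w : List (Lt σ)) (f : σ → ℕ) : hW D (F + G) w f = hW D F w f + hW D G w f := by
  induction w generalizing F G f with
  | nil => simp [hW]
  | cons x w ih =>
    cases x with
    | T y =>
      simp only [hW, Af_add, ih, Pi.add_apply]
      split_ifs <;> ring
    | E e => simp only [hW, Af_add, ih]

theorem hW_smul (w : List (Lt σ)) (f : σ → ℕ) : hW D (c • F) w f = c * hW D F w f := by
  induction w generalizing F f with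
  | nil => simp [hW]
  | cons x w ih =>
    cases x with
    | T y =>
      simp only [hW, Af_smul, ih, Pi.smul_apply, smul_eq_mul]
      split_ifs <;> ring
    | E e => simp only [hW, Af_smul, ih]

theorem pW_add (w : List (Lt σ)) (f : σ → ℕ) : pW i (F + G) w f = pW i F w f + pW i G w f := by
  induction w generalizing F G f with
  | nil => simp [pW]
  | cons x w ih =>
    cases x with
    | T y => simp only [pW, Af_add, ih, Pi.add_apply]; ring
    | E e => simp only [pW, Af_add, ih]; ring

theorem pW_smul (w : List (Lt σ)) (f : σ → ℕ) : pW i (c • F) w f = c * pW i F w f := by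
  induction w generalizing F f with
  | nil => simp [pW]
  | cons x w ih =>
    cases x with
    | T y => simp only [pW, Af_smul, ih, Pi.smul_apply, smul_eq_mul]; ring
    | E e => simp only [pW, Af_smul, ih]; ring

theorem qW_add (w : List (Lt σ)) (f : σ → ℕ) : qW k (F + G) w f = qW k F w f + qW k G w f := by
  induction w generalizing F G f with
  | nil => simp [qW]
  | cons x w ih =>
    cases x with
    | T y => simp only [qW, Af_add, ih]
    | E e => simp only [qW, Af_add, ih, Pi.add_apply]; ring

theorem qW_smul (w : List (Lt σ)) (f : σ → ℕ) : qW k (c • F) w f = c * qW k F w f := by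
  induction w generalizing F f with
  | nil => simp [qW]
  | cons x w ih =>
    cases x with
    | T y => simp only [qW, Af_smul, ih]
    | E e => simp only [qW, Af_smul, ih, Pi.smul_apply, smul_eq_mul]; ring

theorem rW_add (w : List (Lt σ)) (f : σ → ℕ) : rW k i (F + G) w f = rW k i F w f + rW k i G w f := by
  induction w generalizing F G f with
  | nil => simp [rW]
  | cons x w ih =>
    cases x with
    | T y => simp only [rW, Af_add, ih, Pi.add_apply]; ring
    | E e => simp only [rW, Af_add, ih, Pi.add_apply]; ring

theorem rW_smul (w : List (Lt σ)) (f : σ → ℕ) : rW k i (c • F) w f = c * rW k i F w f := by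
  induction w generalizing F f with
  | nil => simp [rW]
  | cons x w ih =>
    cases x with
    | T y => simp only [rW, Af_smul, ih, Pi.smul_apply, smul_eq_mul]; ring
    | E e => simp only [rW, Af_smul, ih, Pi.smul_apply, smul_eq_mul]; ring

end lin

end Pool.Agent.H69.VS
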