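import Pool.Agent.H69.VS.Main

/-!
Reduction modulo `x_i^D`, and the vanishing for weights with small support.
-/

set_option linter.unusedSectionVars false

namespace Pool.Agent.H69.VS

open scoped BigOperators

variable {σ : Type} [Fintype σ] [DecidableEq σ]

/-- exponent of `x_i^D` -/
def vx (D : ℕ) (i : σ) : σ → ℕ := Pi.single i D

theorem dg_vx (D : ℕ) (i : σ) : dg (vx D i) = D := by
  simp [dg, vx]

/-- the homotopy of the pair (letter `x_i^D`, coefficient `x_i^D`) -/
noncomputable def Ko (D : ℕ) (i : σ) (F : Fn σ) : Fn σ :=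
  fun w f => if D ≤ f i then F (Lt.E (vx D i) :: w) (f - vx D i) else 0

/-- reducedness with respect to `i` -/
def Rd (D : ℕ) (i : σ) (F : Fn σ) : Prop :=
  ∀ w f, (D ≤ f i ∨ Lt.E (vx D i) ∈ w) → F w f = 0

theorem sub_vx_add {D : ℕ} {i : σ} {f : σ → ℕ} (h : D ≤ f i) : f - vx D i + vx D i = f := by
  funext z
  by_cases hz : z = i
  · subst hz; simp [vx]; omega
  · simp [vx, hz]

theorem add_vx_sub (D : ℕ) (i : σ) (f : σ → ℕ) : f + vx D i - vx D i = f := by
  funext z; simp

theorem SS_Ko {F : Fn σ} (h : SS F) (D : ℕ) (i : σ) : SS (Ko D i F) := by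
  intro u x y v f
  simp only [Ko]
  split_ifs
  · exact h (Lt.E (vx D i) :: u) x y v _
  · simp

theorem Sp_Ko {D t : ℕ} {β : σ → ℕ} {F : Fn σ} (h : Sp D 0 0 t 0 β F) (i : σ) :
    Sp D 1 0 t 0 β (Ko D i F) := by
  intro w f hne
  by_cases hf : D ≤ f i
  · have h1 : Ko D i F w f = F (Lt.E (vx D i) :: w) (f - vx D i) := if_pos hf
    rw [h1] at hne
    obtain ⟨a1, a2, a3, a4⟩ := h _ _ hne
    refine ⟨by simpa using a1, by simpa [nT] using a2, ?_,
      fun x hx => a4 x (List.mem_cons_of_mem _ hx)⟩
    simp only [md] at a3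
    rw [← a3]
    calc md w + f = md w + (f - vx D i + vx D i) := by rw [sub_vx_add hf]
      _ = vx D i + md w + (f - vx D i) := by
        generalize f - vx D i = g
        abel
  · exact absurd (if_neg hf) hne

theorem sg_Ko (D : ℕ) (i : σ) (F : Fn σ) : sg (vx D i) (Ko D i F) = Af (Lt.E (vx D i)) F := by
  funext w f
  simp only [sg, Ko, Af]
  have h1 : D ≤ (f + vx D i) i := by simp [vx]
  rw [if_pos h1, add_vx_sub]

theorem sg_dW_Ko {D : ℕ} {F : Fn σ} (h : dW D F = 0) (i : σ) :
    sg (vx D i) (dW D (Ko D i F)) = sg (vx D i) F := by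
  have h1 := AE_dW D F (vx D i)
  rw [h] at h1
  rw [← dW_sg, sg_Ko]
  have h2 : cE D (vx D i) = 1 := by simp [cE, dg_vx]
  rw [h2, one_smul] at h1
  have h3 : Af (Lt.E (vx D i)) (0 : Fn σ) = 0 := rfl
  rw [h3] at h1
  exact (sub_eq_zero.1 h1.symm).symm

theorem front_zero {G : Fn σ} (hG : SS G) {x : Lt σ} (h : ∀ w f, G (x :: w) f = 0) :
    ∀ w f, x ∈ w → G w f = 0 := by
  have key : ∀ (u : List (Lt σ)) (G : Fn σ), SS G → (∀ w f, G (x :: w) f = 0) →
      ∀ v f, G (u ++ x :: v) f = 0 := by
    intro u
    induction u with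
    | nil => intro G _ h v f; exact h v f
    | cons y u ih =>
      intro G hG h v f
      apply ih (Af y G) (hG.af y)
      intro w f
      have := hG [] y x w f
      simp only [List.nil_append] at this
      simp only [Af]
      rw [this, h, mul_zero]
  intro w f hx
  obtain ⟨u, v, rfl⟩ := List.append_of_mem hx
  exact key u G hG h v f

theorem Rd_self {D : ℕ} {F : Fn σ} (hF : SS F) (h : dW D F = 0) (i : σ) :
    Rd D i (F - dW D (Ko D i F)) := by
  have h1 : ∀ w f, D ≤ f i → (F - dW D (Ko D i F)) w f = 0 := by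
    intro w f hf
    have h2 := congrFun (congrFun (sg_dW_Ko h i) w) (f - vx D i)
    simp only [sg, sub_vx_add hf] at h2
    simp only [Pi.sub_apply, h2, sub_self]
  intro w f hwf
  rcases hwf with hf | hw
  · exact h1 w f hf
  · refine front_zero (x := Lt.E (vx D i)) (hF.sub ((SS_Ko hF D i).dW D)) ?_ w f hw
    intro w f
    simp only [Pi.sub_apply, dW, dg_vx, if_true]
    have h3 : Ko D i F w (f + vx D i) = F (Lt.E (vx D i) :: w) f := by
      have : D ≤ (f + vx D i) i := by simp [vx]
      simp only [Ko, if_pos this, add_vx_sub]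
    have h4 : Af (Lt.E (vx D i)) (Ko D i F) = 0 := by
      funext w f
      simp only [Af, Ko]
      split_ifs with h5
      · have := hF [] (Lt.E (vx D i)) (Lt.E (vx D i)) w (f - vx D i)
        simp only [List.nil_append, sn] at this
        have h6 : (2 : ℂ) * F (Lt.E (vx D i) :: Lt.E (vx D i) :: w) (f - vx D i) = 0 := by
          linear_combination this
        simpa using h6
      · rfl
    rw [h3, h4, dW_zero']
    simp

theorem Rd_dW {D : ℕ} {F : Fn σ} {i : σ} (h : Rd D i F) : Rd D i (dW D F) := by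
  intro w f hwf
  by_contra hne
  obtain ⟨u, e, v, rfl, h2, h3⟩ := dW_ne D w F f hne
  apply h3
  apply h
  rcases hwf with hf | hw
  · left; simp only [Pi.add_apply]; omega
  · rw [List.mem_append, List.mem_cons] at hw
    rcases hw with hw | hw | hw
    · right; rw [List.mem_append]; left; exact hw
    · left
      have : vx D i = e := by injection hw
      rw [← this]; simp [vx]
    · right; rw [List.mem_append]; right; exact hw

theorem Rd_Ko {D : ℕ} {F : Fn σ} {i k : σ} (hik : i ≠ k) (h : Rd D i F) : Rd D i (Ko D k F) := by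
  intro w f hwf
  simp only [Ko]
  split_ifs with h1
  · apply h
    rcases hwf with hf | hw
    · left
      simp only [Pi.sub_apply, vx, Pi.single_apply, if_neg hik]
      omega
    · right; exact List.mem_cons_of_mem _ hw
  · rfl

theorem Rd_sub {D : ℕ} {F G : Fn σ} {i : σ} (h : Rd D i F) (h' : Rd D i G) : Rd D i (F - G) := by
  intro w f hwf
  simp only [Pi.sub_apply, h w f hwf, h' w f hwf, sub_zero]

theorem reduce {D t : ℕ} {β : σ → ℕ} {F : Fn σ} (hF : SS F) (sF : Sp D 0 0 t 0 β F)
    (dF : dW D F = 0) (S : Finset σ) :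
    ∃ F' : Fn σ, SS F' ∧ Sp D 1 0 t 0 β F' ∧ ∀ i ∈ S, Rd D i (F - dW D F') := by
  induction S using Finset.induction_on with
  | empty => exact ⟨0, SS.zero, Sp.zero, fun i hi => absurd hi (Finset.notMem_empty i)⟩
  | insert k S hk ih =>
    obtain ⟨F', h1, h2, h3⟩ := ih
    have g1 : SS (F - dW D F') := hF.sub (h1.dW D)
    have g2 : Sp D 0 0 t 0 β (F - dW D F') := by
      refine sF.sub ?_
      intro w f hne
      obtain ⟨a1, a2, a3, a4⟩ := h2.dW w f hne
      exact ⟨by omega, a2, a3, a4⟩
    have g3 : dW D (F - dW D F') = 0 := by rw [dW_sub', dF, dW_dW, sub_zero]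
    refine ⟨F' + Ko D k (F - dW D F'), h1.add (SS_Ko g1 D k), h2.add (Sp_Ko g2 k), ?_⟩
    intro i hi
    have e1 : F - dW D (F' + Ko D k (F - dW D F')) =
        (F - dW D F') - dW D (Ko D k (F - dW D F')) := by
      rw [dW_add']; abel
    rw [e1]
    rcases Finset.mem_insert.1 hi with hi | hi
    · subst hi; exact Rd_self g1 g3 i
    · have hik : i ≠ k := fun e => hk (e ▸ hi)
      exact Rd_sub (h3 i hi) (Rd_dW (Rd_Ko hik (h3 i hi)))

theorem dg_md {D : ℕ} : ∀ (w : List (Lt σ)), (∀ x ∈ w, okL D x) →
    dg (md w) + nT w = w.length * D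
  | [], _ => by simp [md, nT, dg]
  | Lt.T y :: w, h => by
    have h1 := dg_md w (fun x hx => h x (List.mem_cons_of_mem _ hx))
    have h2 : dg y + 1 = D := h (Lt.T y) List.mem_cons_self
    simp only [md, nT, List.length_cons, dg_add]
    nlinarith
  | Lt.E y :: w, h => by
    have h1 := dg_md w (fun x hx => h x (List.mem_cons_of_mem _ hx))
    have h2 : dg y = D := h (Lt.E y) List.mem_cons_self
    simp only [md, nT, List.length_cons, dg_add]
    nlinarith

theorem Van_small {D t j : ℕ} {β : σ → ℕ} (hj : (supp β).card * (D - 1) < j)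
    (hdg : dg β = t * D + j) : Van D t β := by
  intro F hF sF dF
  obtain ⟨F', h1, h2, h3⟩ := reduce hF sF dF (supp β)
  refine ⟨F', h1, h2, ?_⟩
  have h4 : F - dW D F' = 0 := by
    funext w f
    by_contra hne
    have g2 : Sp D 0 0 t 0 β (F - dW D F') := by
      refine sF.sub ?_
      intro w f hne
      obtain ⟨a1, a2, a3, a4⟩ := h2.dW w f hne
      exact ⟨by omega, a2, a3, a4⟩
    obtain ⟨a1, a2, a3, a4⟩ := g2 w f hne
    have h5 := dg_md w a4
    have h6 : dg f = j := by
      have h7 : dg (md w) + dg f = t * D + j := by rw [← dg_add, a3, hdg]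
      have h8 : w.length = t := by omega
      rw [h8] at h5
      omega
    have h9 : dg f ≤ (supp β).card * (D - 1) := by
      have h10 : dg f = ∑ i ∈ supp β, f i := by
        unfold dg
        symm
        apply Finset.sum_subset (Finset.subset_univ _)
        intro i _ hi
        have h11 : β i = 0 := by
          by_contra h12
          exact hi (by simp only [supp, Finset.mem_filter, Finset.mem_univ, true_and]; exact h12)
        have := congrFun a3 i
        simp only [Pi.add_apply] at this
        omega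
      rw [h10]
      apply Finset.sum_le_card_nsmul
      intro i hi
      by_contra h13
      push_neg at h13
      exact hne (h3 i hi w f (Or.inl (by omega)))
    omega
  exact (sub_eq_zero.1 h4).symm

end Pool.Agent.H69.VS
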