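import Pool.Agent.H69.VS.Ops

/-!
Relations between the operators: `pW`, `qW` anticommute with the differential, their
anticommutators are the polarization operators `rW`.
-/

set_option linter.unusedSectionVars false

namespace Pool.Agent.H69.VS

open scoped BigOperators

variable {σ : Type} [Fintype σ] [DecidableEq σ]

/-- indicator of degree `D` -/
noncomputable def cE (D : ℕ) (e : σ → ℕ) : ℂ := if dg e = D then 1 else 0
/-- indicator of degree `D - 1` -/
noncomputable def cT (D : ℕ) (y : σ → ℕ) : ℂ := if dg y + 1 = D then 1 else 0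

theorem dg_add (e g : σ → ℕ) : dg (e + g) = dg e + dg g := by
  simp [dg, Finset.sum_add_distrib]

theorem dg_ep (i : σ) : dg (ep i) = 1 := by
  simp [dg, ep]

theorem dg_sub (e : σ → ℕ) (k : σ) (h : e k ≠ 0) : dg (e - ep k) + 1 = dg e := by
  have h1 : e - ep k + ep k = e := by
    funext x
    by_cases hx : x = k
    · subst hx; simp [ep]; omega
    · simp [ep, hx]
  conv_rhs => rw [← h1]
  rw [dg_add, dg_ep]

theorem cE_add (D : ℕ) (y : σ → ℕ) (i : σ) : cE D (y + ep i) = cT D y := by
  simp [cE, cT, dg_add, dg_ep]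

theorem cT_sub (D : ℕ) (e : σ → ℕ) (k : σ) : (e k : ℂ) * cT D (e - ep k) = (e k : ℂ) * cE D e := by
  by_cases h : e k = 0
  · simp [h]
  · have := dg_sub e k h
    unfold cE cT
    rw [this]

section nil
variable (D : ℕ) (i k : σ) (F : Fn σ) (f : σ → ℕ)
@[simp] theorem dW_nil : dW D F [] f = 0 := by simp [dW]
@[simp] theorem hW_nil : hW D F [] f = 0 := by simp [hW]
@[simp] theorem pW_nil : pW i F [] f = 0 := by simp [pW]
@[simp] theorem qW_nil : qW k F [] f = 0 := by simp [qW]
@[simp] theorem rW_nil : rW k i F [] f = 0 := by simp [rW]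
end nil

section fn
variable (D : ℕ) (i k : σ) (F G : Fn σ) (c : ℂ)

theorem dW_add' : dW D (F + G) = dW D F + dW D G := by funext w f; exact dW_add D F G w f
theorem dW_smul' : dW D (c • F) = c • dW D F := by funext w f; exact dW_smul D F c w f
theorem hW_add' : hW D (F + G) = hW D F + hW D G := by funext w f; exact hW_add D F G w f
theorem hW_smul' : hW D (c • F) = c • hW D F := by funext w f; exact hW_smul D F c w f
theorem pW_add' : pW i (F + G) = pW i F + pW i G := by funext w f; exact pW_add i F G w f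
theorem pW_smul' : pW i (c • F) = c • pW i F := by funext w f; exact pW_smul i F c w f
theorem qW_add' : qW k (F + G) = qW k F + qW k G := by funext w f; exact qW_add k F G w f
theorem qW_smul' : qW k (c • F) = c • qW k F := by funext w f; exact qW_smul k F c w f
theorem rW_add' : rW k i (F + G) = rW k i F + rW k i G := by funext w f; exact rW_add i k F G w f
theorem rW_smul' : rW k i (c • F) = c • rW k i F := by funext w f; exact rW_smul i k F c w f

theorem dW_neg' : dW D (-F) = - dW D F := by rw [← neg_one_smul ℂ F, dW_smul', neg_one_smul]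
theorem hW_neg' : hW D (-F) = - hW D F := by rw [← neg_one_smul ℂ F, hW_smul', neg_one_smul]
theorem pW_neg' : pW i (-F) = - pW i F := by rw [← neg_one_smul ℂ F, pW_smul', neg_one_smul]
theorem qW_neg' : qW k (-F) = - qW k F := by rw [← neg_one_smul ℂ F, qW_smul', neg_one_smul]
theorem rW_neg' : rW k i (-F) = - rW k i F := by rw [← neg_one_smul ℂ F, rW_smul', neg_one_smul]
theorem dW_sub' : dW D (F - G) = dW D F - dW D G := by rw [sub_eq_add_neg, dW_add', dW_neg', ← sub_eq_add_neg]
theorem hW_sub' : hW D (F - G) = hW D F - hW D G := by rw [sub_eq_add_neg, hW_add', hW_neg', ← sub_eq_add_neg]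
theorem pW_sub' : pW i (F - G) = pW i F - pW i G := by rw [sub_eq_add_neg, pW_add', pW_neg', ← sub_eq_add_neg]
theorem qW_sub' : qW k (F - G) = qW k F - qW k G := by rw [sub_eq_add_neg, qW_add', qW_neg', ← sub_eq_add_neg]
theorem rW_sub' : rW k i (F - G) = rW k i F - rW k i G := by rw [sub_eq_add_neg, rW_add', rW_neg', ← sub_eq_add_neg]
theorem dW_zero' : dW D (0 : Fn σ) = 0 := by
  simpa using dW_smul' D (0 : Fn σ) 0
theorem hW_zero' : hW D (0 : Fn σ) = 0 := by
  simpa using hW_smul' D (0 : Fn σ) 0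
theorem pW_zero' : pW i (0 : Fn σ) = 0 := by
  simpa using pW_smul' i (0 : Fn σ) 0
theorem qW_zero' : qW k (0 : Fn σ) = 0 := by
  simpa using qW_smul' k (0 : Fn σ) 0
theorem rW_zero' : rW k i (0 : Fn σ) = 0 := by
  simpa using rW_smul' i k (0 : Fn σ) 0

theorem sg_add (g : σ → ℕ) : sg g (F + G) = sg g F + sg g G := rfl
theorem sg_sub (g : σ → ℕ) : sg g (F - G) = sg g F - sg g G := rfl
theorem sg_neg (g : σ → ℕ) : sg g (- G) = - sg g G := rfl
theorem sg_smul (g : σ → ℕ) : sg g (c • F) = c • sg g F := rfl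
theorem ta_add : ta k (F + G) = ta k F + ta k G := by funext w f; simp [ta]; ring
theorem ta_sub : ta k (F - G) = ta k F - ta k G := by funext w f; simp [ta]; ring
theorem ta_neg : ta k (- G) = - ta k G := by funext w f; simp [ta]
theorem ta_smul : ta k (c • F) = c • ta k F := by funext w f; simp [ta]; ring

theorem AE_dW (e : σ → ℕ) : Af (Lt.E e) (dW D F) = cE D e • sg e F - dW D (Af (Lt.E e) F) := by
  funext w f
  simp only [Af, dW, cE, Pi.sub_apply, Pi.smul_apply, smul_eq_mul, sg]
  split_ifs <;> simp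
theorem AT_dW (y : σ → ℕ) : Af (Lt.T y) (dW D F) = dW D (Af (Lt.T y) F) := by
  funext w f
  simp only [Af, dW]
theorem AE_hW (e : σ → ℕ) : Af (Lt.E e) (hW D F) = hW D (Af (Lt.E e) F) := by
  funext w f
  simp only [Af, hW]
theorem AT_hW (y : σ → ℕ) : Af (Lt.T y) (hW D F) = cT D y • sg y F + hW D (Af (Lt.T y) F) := by
  funext w f
  simp only [Af, hW, cT, Pi.add_apply, Pi.smul_apply, smul_eq_mul, sg]
  split_ifs <;> simp
theorem AE_pW (e : σ → ℕ) : Af (Lt.E e) (pW i F) = - pW i (Af (Lt.E e) F) := by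
  funext w f
  simp only [Af, pW, Pi.neg_apply]
theorem AT_pW (y : σ → ℕ) :
    Af (Lt.T y) (pW i F) = - Af (Lt.E (y + ep i)) F + pW i (Af (Lt.T y) F) := by
  funext w f
  simp only [Af, pW, Pi.neg_apply, Pi.add_apply]
theorem AE_qW (e : σ → ℕ) :
    Af (Lt.E e) (qW k F) = - ((e k : ℂ) • Af (Lt.T (e - ep k)) F) - qW k (Af (Lt.E e) F) := by
  funext w f
  simp only [Af, qW, Pi.neg_apply, Pi.sub_apply, Pi.smul_apply, smul_eq_mul]
theorem AT_qW (y : σ → ℕ) : Af (Lt.T y) (qW k F) = qW k (Af (Lt.T y) F) := by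
  funext w f
  simp only [Af, qW]
theorem AE_rW (e : σ → ℕ) :
    Af (Lt.E e) (rW k i F) = ((e k : ℕ) : ℂ) • Af (Lt.E (e - ep k + ep i)) F
      + rW k i (Af (Lt.E e) F) := by
  funext w f
  simp only [Af, rW, Pi.add_apply, Pi.smul_apply, smul_eq_mul]
theorem AT_rW (y : σ → ℕ) :
    Af (Lt.T y) (rW k i F) = (((y + ep i) k : ℕ) : ℂ) • Af (Lt.T (y + ep i - ep k)) F
      + rW k i (Af (Lt.T y) F) := by
  funext w f
  simp only [Af, rW, Pi.add_apply, Pi.smul_apply, smul_eq_mul]

end fn

/-- induction on the word -/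
theorem rec_zero (X : Fn σ → Fn σ) (h0 : ∀ F f, X F [] f = 0)
    (h : ∀ F x, ∃ c : ℂ, Af x (X F) = c • X (Af x F)) (F : Fn σ) : X F = 0 := by
  funext w f
  induction w generalizing F f with
  | nil => exact h0 F f
  | cons x w ih =>
    obtain ⟨c, hc⟩ := h F x
    have h1 : Af x (X F) w f = (c • X (Af x F)) w f := by rw [hc]
    have h2 := ih (Af x F) f
    have h3 : X F (x :: w) f = Af x (X F) w f := rfl
    rw [h3, h1]
    simp only [Pi.smul_apply, smul_eq_mul]
    rw [h2]
    simp

section rel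
variable (D : ℕ) (i j k l : σ) (F G : Fn σ)

theorem dW_sg (g : σ → ℕ) : dW D (sg g F) = sg g (dW D F) := by
  rw [← sub_eq_zero]
  refine rec_zero (fun F => dW D (sg g F) - sg g (dW D F)) (by simp [sg]) ?_ F
  intro F x
  cases x with
  | T y => exact ⟨1, by simp only [Af_sub, AT_dW, Af_sg, one_smul]⟩
  | E e =>
    refine ⟨-1, ?_⟩
    simp only [Af_sub, AE_dW, Af_sg, sg_sub, sg_smul]
    have : sg e (sg g F) = sg g (sg e F) := by
      funext w f; simp only [sg]; congr 1; abel
    rw [this]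
    module

theorem hW_sg (g : σ → ℕ) : hW D (sg g F) = sg g (hW D F) := by
  rw [← sub_eq_zero]
  refine rec_zero (fun F => hW D (sg g F) - sg g (hW D F)) (by simp [sg]) ?_ F
  intro F x
  cases x with
  | E y => exact ⟨1, by simp only [Af_sub, AE_hW, Af_sg, one_smul]⟩
  | T e =>
    refine ⟨1, ?_⟩
    simp only [Af_sub, AT_hW, Af_sg, sg_add, sg_smul]
    have : sg e (sg g F) = sg g (sg e F) := by
      funext w f; simp only [sg]; congr 1; abel
    rw [this]
    module

theorem pW_sg (g : σ → ℕ) : pW i (sg g F) = sg g (pW i F) := by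
  rw [← sub_eq_zero]
  refine rec_zero (fun F => pW i (sg g F) - sg g (pW i F)) (by simp [sg]) ?_ F
  intro F x
  cases x with
  | E y => exact ⟨-1, by simp only [Af_sub, AE_pW, Af_sg, sg_neg]; module⟩
  | T e => exact ⟨1, by simp only [Af_sub, AT_pW, Af_sg, sg_add, sg_neg]; module⟩

theorem qW_sg (g : σ → ℕ) : qW k (sg g F) = sg g (qW k F) := by
  rw [← sub_eq_zero]
  refine rec_zero (fun F => qW k (sg g F) - sg g (qW k F)) (by simp [sg]) ?_ F
  intro F x
  cases x with
  | T y => exact ⟨1, by simp only [Af_sub, AT_qW, Af_sg]; module⟩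
  | E e => exact ⟨-1, by simp only [Af_sub, AE_qW, Af_sg, sg_sub, sg_neg, sg_smul]; module⟩

theorem rW_sg (g : σ → ℕ) : rW k i (sg g F) = sg g (rW k i F) := by
  rw [← sub_eq_zero]
  refine rec_zero (fun F => rW k i (sg g F) - sg g (rW k i F)) (by simp [sg]) ?_ F
  intro F x
  cases x with
  | T y => exact ⟨1, by simp only [Af_sub, AT_rW, Af_sg, sg_add, sg_smul]; module⟩
  | E e => exact ⟨1, by simp only [Af_sub, AE_rW, Af_sg, sg_add, sg_smul]; module⟩

theorem pW_ta : pW i (ta k F) = ta k (pW i F) := by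
  rw [← sub_eq_zero]
  refine rec_zero (fun F => pW i (ta k F) - ta k (pW i F)) (by simp [ta]) ?_ F
  intro F x
  cases x with
  | E y => exact ⟨-1, by simp only [Af_sub, AE_pW, Af_ta, ta_neg]; module⟩
  | T e => exact ⟨1, by simp only [Af_sub, AT_pW, Af_ta, ta_add, ta_neg]; module⟩

theorem qW_ta : qW j (ta k F) = ta k (qW j F) := by
  rw [← sub_eq_zero]
  refine rec_zero (fun F => qW j (ta k F) - ta k (qW j F)) (by simp [ta]) ?_ F
  intro F x
  cases x with
  | T y => exact ⟨1, by simp only [Af_sub, AT_qW, Af_ta]; module⟩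
  | E e => exact ⟨-1, by simp only [Af_sub, AE_qW, Af_ta, ta_sub, ta_neg, ta_smul]; module⟩

theorem dW_dW : dW D (dW D F) = 0 := by
  refine rec_zero (fun F => dW D (dW D F)) (by simp) ?_ F
  intro F x
  cases x with
  | T y => exact ⟨1, by simp only [AT_dW]; module⟩
  | E e =>
    refine ⟨1, ?_⟩
    simp only [AE_dW, dW_sub', dW_smul', dW_sg]
    module

theorem dW_hW : dW D (hW D F) = hW D (dW D F) := by
  rw [← sub_eq_zero]
  refine rec_zero (fun F => dW D (hW D F) - hW D (dW D F)) (by simp) ?_ F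
  intro F x
  cases x with
  | T y =>
    refine ⟨1, ?_⟩
    simp only [Af_sub, AT_dW, AT_hW, dW_add', dW_smul', dW_sg]
    module
  | E e =>
    refine ⟨-1, ?_⟩
    simp only [Af_sub, AE_dW, AE_hW, hW_sub', hW_smul', hW_sg]
    module

theorem pW_dW : pW i (dW D F) + dW D (pW i F) + hW D (sg (ep i) F) = 0 := by
  refine rec_zero (fun F => pW i (dW D F) + dW D (pW i F) + hW D (sg (ep i) F)) (by simp) ?_ F
  intro F x
  cases x with
  | T y =>
    refine ⟨1, ?_⟩
    simp only [Af_add, AT_dW, AT_pW, AT_hW, AE_dW, dW_add', dW_neg', Af_sg, cE_add]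
    have : sg y (sg (ep i) F) = sg (y + ep i) F := by
      funext w f; simp only [sg]; congr 1; abel
    rw [this]
    module
  | E e =>
    refine ⟨1, ?_⟩
    simp only [Af_add, AE_dW, AE_pW, AE_hW, pW_sub', pW_smul', pW_sg, Af_sg, dW_neg']
    module

theorem pW_hW : pW i (hW D F) = hW D (pW i F) := by
  rw [← sub_eq_zero]
  refine rec_zero (fun F => pW i (hW D F) - hW D (pW i F)) (by simp) ?_ F
  intro F x
  cases x with
  | T y =>
    refine ⟨1, ?_⟩
    simp only [Af_sub, AT_pW, AT_hW, AE_hW, pW_add', pW_smul', pW_sg, hW_add', hW_neg']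
    module
  | E e =>
    refine ⟨-1, ?_⟩
    simp only [Af_sub, AE_pW, AE_hW, hW_neg']
    module

theorem qW_dW : qW k (dW D F) + dW D (qW k F) = 0 := by
  refine rec_zero (fun F => qW k (dW D F) + dW D (qW k F)) (by simp) ?_ F
  intro F x
  cases x with
  | T y =>
    refine ⟨1, ?_⟩
    simp only [Af_add, AT_dW, AT_qW]
    module
  | E e =>
    refine ⟨1, ?_⟩
    simp only [Af_add, AE_dW, AE_qW, AT_dW, qW_sub', qW_smul', qW_sg, dW_sub', dW_neg', dW_smul']
    module

theorem sg_ta (e : σ → ℕ) : sg e (ta k F) - ta k (sg e F) = (e k : ℂ) • sg (e - ep k) F := by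
  funext w f
  simp only [sg, ta, Pi.sub_apply, Pi.smul_apply, smul_eq_mul, Pi.add_apply, Nat.cast_add]
  by_cases hf : f k = 0
  · by_cases he : e k = 0
    · simp [hf, he]
    · have : f + e - ep k = f + (e - ep k) := by
        funext x
        by_cases hx : x = k
        · subst hx; simp [ep]; omega
        · simp [ep, hx]
      rw [this, hf]; simp
  · have h1 : f + e - ep k = f - ep k + e := by
      funext x
      by_cases hx : x = k
      · subst hx; simp [ep]; omega
      · simp [ep, hx]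
    by_cases he : e k = 0
    · rw [h1, he]; simp
    · have h2 : f + (e - ep k) = f - ep k + e := by
        funext x
        by_cases hx : x = k
        · subst hx; simp [ep]; omega
        · simp [ep, hx]
      rw [h1, h2]; ring

theorem qW_hW : qW k (hW D G) + dW D (ta k G) - ta k (dW D G) - hW D (qW k G) = 0 := by
  refine rec_zero (fun G => qW k (hW D G) + dW D (ta k G) - ta k (dW D G) - hW D (qW k G))
    (by simp [ta]) ?_ G
  intro F x
  cases x with
  | T y =>
    refine ⟨1, ?_⟩
    simp only [Af_add, Af_sub, AT_dW, AT_qW, AT_hW, qW_add', qW_smul', qW_sg, Af_ta]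
    module
  | E e =>
    refine ⟨-1, ?_⟩
    have h1 := sg_ta k F e
    have h2 : (e k : ℂ) • (cT D (e - ep k) • sg (e - ep k) F) =
        cE D e • (sg e (ta k F) - ta k (sg e F)) := by
      rw [h1, smul_smul, smul_smul, cT_sub, mul_comm]
    simp only [Af_add, Af_sub, AE_dW, AE_qW, AT_hW, AE_hW, hW_sub', hW_neg', hW_smul',
      Af_ta, ta_sub, ta_smul, smul_add, h2]
    module

theorem qW_pW : qW k (pW i F) + pW i (qW k F) = rW k i F := by
  rw [← sub_eq_zero]
  refine rec_zero (fun F => qW k (pW i F) + pW i (qW k F) - rW k i F) (by simp) ?_ F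
  intro F x
  cases x with
  | T y =>
    refine ⟨1, ?_⟩
    simp only [Af_add, Af_sub, AT_pW, AT_qW, AT_rW, AE_qW, qW_add', qW_neg']
    module
  | E e =>
    refine ⟨1, ?_⟩
    simp only [Af_add, Af_sub, AE_pW, AE_qW, AE_rW, AT_pW, pW_sub', pW_neg', pW_smul', qW_neg']
    by_cases he : e k = 0
    · simp only [he, Nat.cast_zero]
      module
    · have h3 : e - ep k + ep i = e - ep k + ep i := rfl
      module

end rel

end Pool.Agent.H69.VS
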