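import Pool.Agent.H69.VS.Supp

/-!
Primitives of functions of even letters, and the vanishing of the classes of high `eta` degree.
-/

set_option linter.unusedSectionVars false

namespace Pool.Agent.H69.VS

open scoped BigOperators

variable {σ : Type} [Fintype σ] [DecidableEq σ]

/-- vanishing at homological degree `t` and weight `β` -/
def Van (D t : ℕ) (β : σ → ℕ) : Prop :=
  ∀ F : Fn σ, SS F → Sp D 0 0 t 0 β F → dW D F = 0 →
    ∃ F' : Fn σ, SS F' ∧ Sp D 1 0 t 0 β F' ∧ dW D F' = F

/-- list of the even letters -/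
def TL : List (Lt σ) → List (σ → ℕ)
  | [] => []
  | Lt.T y :: w => y :: TL w
  | Lt.E _ :: w => TL w

/-- subword of the odd letters -/
def Ew : List (Lt σ) → List (Lt σ)
  | [] => []
  | Lt.T _ :: w => Ew w
  | Lt.E e :: w => Lt.E e :: Ew w

theorem TL_append (u v : List (Lt σ)) : TL (u ++ v) = TL u ++ TL v := by
  induction u with
  | nil => rfl
  | cons x u ih => cases x <;> simp [TL, ih]

theorem Ew_append (u v : List (Lt σ)) : Ew (u ++ v) = Ew u ++ Ew v := by
  induction u with
  | nil => rfl
  | cons x u ih => cases x <;> simp [Ew, ih]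

theorem TL_length (w : List (Lt σ)) : (TL w).length = nT w := by
  induction w with
  | nil => rfl
  | cons x u ih => cases x <;> simp [TL, nT, ih]

theorem length_split (w : List (Lt σ)) : w.length = (TL w).length + (Ew w).length := by
  induction w with
  | nil => rfl
  | cons x u ih => cases x <;> simp [TL, Ew, ih] <;> omega

theorem md_split (w : List (Lt σ)) : md w = (TL w).sum + md (Ew w) := by
  induction w with
  | nil => simp [md, TL, Ew]
  | cons x u ih =>
    cases x
    · simp only [TL, Ew, md, List.sum_cons, ih]; abel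
    · simp only [TL, Ew, md, ih]; abel

theorem nT_Ew (w : List (Lt σ)) : nT (Ew w) = 0 := by
  induction w with
  | nil => rfl
  | cons x u ih => cases x <;> simp [Ew, nT, ih]

theorem Ew_mem (w : List (Lt σ)) (x : Lt σ) (h : x ∈ w) : (∃ y ∈ TL w, x = Lt.T y) ∨ x ∈ Ew w := by
  induction w with
  | nil => simp at h
  | cons z u ih =>
    rcases List.mem_cons.1 h with h | h
    · subst h
      cases x
      · left; exact ⟨_, by simp [TL], rfl⟩
      · right; simp [Ew]
    · rcases ih h with ⟨y, hy, rfl⟩ | h'
      · left; refine ⟨y, ?_, rfl⟩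
        cases z <;> simp [TL, hy]
      · right; cases z <;> simp [Ew, h']

/-- the word of even letters of a list -/
def mT (a : List (σ → ℕ)) : List (Lt σ) := a.map Lt.T

theorem mT_move {X : Fn σ} (h : SS X) (a : List (σ → ℕ)) (x : Lt σ) (v : List (Lt σ)) (f : σ → ℕ) :
    X (x :: (mT a ++ v)) f = X (mT a ++ x :: v) f := by
  induction a generalizing X with
  | nil => rfl
  | cons y a ih =>
    have h1 : X (x :: (mT (y :: a) ++ v)) f = X (Lt.T y :: x :: (mT a ++ v)) f := by
      have := h [] x (Lt.T y) (mT a ++ v) f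
      simp only [List.nil_append] at this
      have hs : sn x (Lt.T y) = 1 := by cases x <;> rfl
      rw [hs, one_mul] at this
      exact this
    rw [h1]
    exact ih (h.af (Lt.T y))

theorem mT_perm {a b : List (σ → ℕ)} (hab : a.Perm b) : ∀ {X : Fn σ}, SS X →
    ∀ (v : List (Lt σ)) (f : σ → ℕ), X (mT a ++ v) f = X (mT b ++ v) f := by
  induction hab with
  | nil => intro X _ v f; rfl
  | cons x _ ih =>
    intro X h v f
    exact ih (h.af (Lt.T x)) v f
  | swap x y l =>
    intro X h v f
    have := h [] (Lt.T y) (Lt.T x) (mT l ++ v) f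
    simp only [List.nil_append, sn, one_mul] at this
    exact this
  | trans _ _ ih1 ih2 => intro X h v f; rw [ih1 h v f, ih2 h v f]

theorem SS_sort {X : Fn σ} (h : SS X) (w : List (Lt σ)) (f : σ → ℕ) :
    X w f = X (mT (TL w) ++ Ew w) f := by
  induction w generalizing X with
  | nil => rfl
  | cons x w ih =>
    cases x with
    | T y => exact ih (h.af (Lt.T y))
    | E e =>
      have h1 : X (Lt.E e :: w) f = X (Lt.E e :: (mT (TL w) ++ Ew w)) f := ih (h.af (Lt.E e))
      rw [h1, mT_move h]
      rfl

/-- multiset of the even letters -/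
def Tm (w : List (Lt σ)) : Multiset (σ → ℕ) := (TL w : Multiset (σ → ℕ))

theorem SS_sort' {X : Fn σ} (h : SS X) (w : List (Lt σ)) (f : σ → ℕ) :
    X w f = X (mT (Tm w).toList ++ Ew w) f := by
  rw [SS_sort h w f]
  apply mT_perm _ h
  have : ((Tm w).toList : Multiset (σ → ℕ)) = (TL w : Multiset (σ → ℕ)) := by
    rw [Multiset.coe_toList]; rfl
  exact (Multiset.coe_eq_coe.1 this).symm

/-- glue a family of functions indexed by the multiset of even letters -/
def glue (B : Multiset (σ → ℕ) → Fn σ) : Fn σ := fun w f => B (Tm w) (Ew w) f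

theorem dW_glue (D : ℕ) (B : Multiset (σ → ℕ) → Fn σ) (w : List (Lt σ)) (f : σ → ℕ) :
    dW D (glue B) w f = dW D (B (Tm w)) (Ew w) f := by
  induction w generalizing B f with
  | nil => simp [Ew]
  | cons x w ih =>
    cases x with
    | T y =>
      have h1 : Af (Lt.T y) (glue B) = glue (fun a => B (y ::ₘ a)) := rfl
      simp only [dW]
      rw [h1, ih]
      rfl
    | E e =>
      have h1 : Af (Lt.E e) (glue B) = glue (fun a => Af (Lt.E e) (B a)) := rfl
      simp only [dW, Ew]
      rw [h1, ih]
      rfl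

theorem SS_glue (B : Multiset (σ → ℕ) → Fn σ) (h : ∀ a, SS (B a)) : SS (glue B) := by
  intro u x y v f
  have hT : Tm (u ++ x :: y :: v) = Tm (u ++ y :: x :: v) := by
    unfold Tm
    rw [Multiset.coe_eq_coe, TL_append, TL_append]
    apply List.Perm.append_left
    cases x <;> cases y <;> simp only [TL] <;> first | exact List.Perm.refl _ | exact List.Perm.swap _ _ _
  simp only [glue]
  rw [hT]
  cases x <;> cases y <;> simp only [Ew_append, Ew, sn, one_mul]
  exact h _ _ _ _ _ _

/-- fix the even letters -/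
noncomputable def fixT (X : Fn σ) (a : Multiset (σ → ℕ)) : Fn σ :=
  fun w f => if nT w = 0 then X (mT a.toList ++ w) f else 0

theorem SS_fixT {X : Fn σ} (h : SS X) (a : Multiset (σ → ℕ)) : SS (fixT X a) := by
  intro u x y v f
  have hn : nT (u ++ x :: y :: v) = nT (u ++ y :: x :: v) := by
    rw [nT_append, nT_append]; cases x <;> cases y <;> simp [nT]
  simp only [fixT]
  rw [hn]
  split_ifs
  · rw [← List.append_assoc, h, List.append_assoc]
  · simp

theorem AmT_dW (D : ℕ) (X : Fn σ) (a : List (σ → ℕ)) (w : List (Lt σ)) (f : σ → ℕ) :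
    dW D X (mT a ++ w) f = dW D (fun w f => X (mT a ++ w) f) w f := by
  induction a generalizing X with
  | nil => rfl
  | cons y a ih =>
    have : dW D X (mT (y :: a) ++ w) f = dW D (Af (Lt.T y) X) (mT a ++ w) f := by
      rw [← AT_dW]; rfl
    rw [this, ih]
    rfl

theorem dW_fixT {D : ℕ} {X : Fn σ} (hX : dW D X = 0) (a : Multiset (σ → ℕ)) :
    dW D (fixT X a) = 0 := by
  funext w f
  by_contra hne
  by_cases hw : nT w = 0
  · have h1 : dW D (fixT X a) w f = dW D (fun w f => X (mT a.toList ++ w) f) w f := by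
      by_contra h2
      have h3 : dW D (fixT X a - fun w f => X (mT a.toList ++ w) f) w f ≠ 0 := by
        rw [dW_sub']
        simp only [Pi.sub_apply]
        exact sub_ne_zero.2 h2
      obtain ⟨u, e, v, rfl, h4, h5⟩ := dW_ne D w _ f h3
      apply h5
      have h6 : nT (u ++ v) = 0 := by
        simp only [nT_append, nT] at hw ⊢; omega
      simp only [Pi.sub_apply, fixT, h6, if_true, sub_self]
    rw [← AmT_dW, hX] at h1
    exact hne h1
  · obtain ⟨u, e, v, rfl, h4, h5⟩ := dW_ne D w _ f hne
    apply hw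
    by_contra h6
    apply h5
    have h7 : nT (u ++ v) ≠ 0 := by
      simp only [nT_append, nT] at h6 ⊢; omega
    simp only [fixT, h7, if_false]

theorem dg_list_sum (D : ℕ) (a : List (σ → ℕ)) (h : ∀ y ∈ a, dg y + 1 = D) :
    dg a.sum + a.length = a.length * D := by
  induction a with
  | nil => simp [dg]
  | cons y a ih =>
    rw [List.sum_cons, dg_add, List.length_cons]
    have h1 := h y (by simp)
    have h2 := ih (fun z hz => h z (by simp [hz]))
    nlinarith

theorem nT_mT (a : List (σ → ℕ)) : nT (mT a) = a.length := by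
  induction a with
  | nil => rfl
  | cons y a ih => simp only [mT, List.map_cons, nT, List.length_cons] at ih ⊢; rw [ih]

theorem md_mT (a : List (σ → ℕ)) : md (mT a) = a.sum := by
  induction a with
  | nil => rfl
  | cons y a ih => simp only [mT, List.map_cons, md, List.sum_cons] at ih ⊢; rw [ih]

/-- the main lemma: primitives letter by letter -/
theorem prim {D c t μ : ℕ} {α : σ → ℕ} {X : Fn σ} (hS : SS X) (hX : Sp D 0 c t (μ + c) α X)
    (hd : dW D X = 0)
    (hV : ∀ (r : ℕ) (β : σ → ℕ), r + μ = t → dg β + μ * D = dg α + μ → Van D r β) :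
    ∃ X' : Fn σ, SS X' ∧ Sp D 1 c t (μ + c) α X' ∧ dW D X' = X := by
  have key : ∀ a : Multiset (σ → ℕ), ∃ B : Fn σ, SS B ∧ dW D B = fixT X a ∧
      (∀ w f, B w f ≠ 0 → w.length + 1 + a.card = t ∧ nT w = 0 ∧ md w + f + a.sum = α ∧
        (∀ x ∈ w, okL D x) ∧ (∀ y ∈ a, dg y + 1 = D) ∧ a.card = μ) := by
    intro a
    by_cases h0 : fixT X a = 0
    · exact ⟨0, SS.zero, by rw [h0, dW_zero'], fun w f h => absurd rfl h⟩
    · have h1 : ∃ w f, fixT X a w f ≠ 0 := by
        by_contra h2
        push_neg at h2
        exact h0 (by funext w f; exact h2 w f)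
      obtain ⟨w0, f0, h2⟩ := h1
      have hw0 : nT w0 = 0 := by
        by_contra h3; apply h2; simp [fixT, h3]
      have h3 : X (mT a.toList ++ w0) f0 ≠ 0 := by
        intro h4; apply h2; simp [fixT, h4]
      obtain ⟨a1, a2, a3, a4⟩ := hX _ _ h3
      rw [List.length_append] at a1
      rw [nT_append, nT_mT, hw0] at a2
      rw [md_append, md_mT] at a3
      have hcard : a.toList.length = a.card := Multiset.length_toList a
      have hsum : a.toList.sum = a.sum := Multiset.sum_toList a
      have hmlen : (mT a.toList).length = a.card := by simp [mT]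
      rw [hcard] at a2
      rw [hmlen] at a1
      rw [hsum] at a3
      have hok : ∀ y ∈ a, dg y + 1 = D := by
        intro y hy
        have := a4 (Lt.T y) (by
          rw [List.mem_append]; left
          exact List.mem_map.2 ⟨y, Multiset.mem_toList.2 hy, rfl⟩)
        exact this
      have hdg := dg_list_sum D a.toList (fun y hy => hok y (Multiset.mem_toList.1 hy))
      rw [hsum, hcard] at hdg
      have hμ : a.card = μ := by omega
      have hV' := hV w0.length (md w0 + f0) (by omega) (by
        rw [← a3, ← hμ]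
        have : a.sum + md w0 + f0 = (md w0 + f0) + a.sum := by abel
        rw [this, dg_add (md w0 + f0) a.sum]
        omega)
      obtain ⟨B, b1, b2, b3⟩ := hV' (fixT X a) (SS_fixT hS a) (by
        intro w f hne
        have hw : nT w = 0 := by
          by_contra h3; apply hne; simp [fixT, h3]
        have h3 : X (mT a.toList ++ w) f ≠ 0 := by
          intro h4; apply hne; simp [fixT, h4]
        obtain ⟨c1, c2, c3, c4⟩ := hX _ _ h3
        rw [List.length_append, hmlen] at c1
        rw [md_append, md_mT, hsum] at c3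
        refine ⟨by omega, hw, ?_, fun x hx => c4 x (by rw [List.mem_append]; right; exact hx)⟩
        have : a.sum + (md w + f) = a.sum + (md w0 + f0) := by
          rw [← add_assoc, ← add_assoc, c3, a3]
        exact add_left_cancel this) (dW_fixT hd a)
      refine ⟨B, b1, b3, ?_⟩
      intro w f hne
      obtain ⟨c1, c2, c3, c4⟩ := b2 w f hne
      refine ⟨by omega, by omega, ?_, c4, hok, hμ⟩
      rw [c3, ← a3]; abel
  choose B hB1 hB2 hB3 using key
  refine ⟨glue B, SS_glue B hB1, ?_, ?_⟩
  · intro w f hne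
    obtain ⟨c1, c2, c3, c4, c5, c6⟩ := hB3 _ _ _ hne
    have hcard : (Tm w).card = (TL w).length := rfl
    have hsum : (Tm w).sum = (TL w).sum := by simp [Tm]
    have hl := length_split w
    have hn := TL_length w
    have hm := md_split w
    rw [hcard] at c1 c6
    rw [hsum] at c3
    refine ⟨by omega, by omega, ?_, ?_⟩
    · rw [hm, ← c3]; abel
    · intro x hx
      rcases Ew_mem w x hx with ⟨y, hy, rfl⟩ | h
      · exact c5 y hy
      · exact c4 x h
  · funext w f
    rw [dW_glue, hB2]
    simp only [fixT, nT_Ew, if_true]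
    rw [← SS_sort' hS]

/-- skew lemma: classes of `eta` degree `m` vanish -/
theorem skew {D t m : ℕ} {α : σ → ℕ} {F G : Fn σ} (hF : SS F) (hG : SS G)
    (sF : Sp D 0 0 t (m + 1) α F) (sG : Sp D 0 1 t (m + 1) α G)
    (h1 : dW D F + hW D G = 0) (h2 : dW D G = 0)
    (hV1 : ∀ (r : ℕ) (β : σ → ℕ), r + m = t → dg β + m * D = dg α + m → Van D r β)
    (hV0 : ∀ (r : ℕ) (β : σ → ℕ), r + (m + 1) = t → dg β + (m + 1) * D = dg α + (m + 1) →
      Van D r β) :
    ∃ F' G' : Fn σ, SS F' ∧ SS G' ∧ dW D F' + hW D G' = F ∧ - dW D G' = G := by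
  obtain ⟨X1, x1, x2, x3⟩ := prim (c := 1) (μ := m) hG sG h2 hV1
  have hd : dW D (F + hW D X1) = 0 := by
    rw [dW_add', dW_hW, x3]; exact h1
  have hSp : Sp D 0 0 t (m + 1) α (hW D X1) := by
    intro w f hne
    obtain ⟨u, e, v, rfl, h2, h3⟩ := hW_ne D w X1 f hne
    obtain ⟨a1, a2, a3, a4⟩ := x2 _ _ h3
    refine ⟨?_, ?_, ?_, ?_⟩
    · simp only [List.length_append, List.length_cons] at a1 ⊢; omega
    · simp only [nT_append, nT] at a2 ⊢; omega
    · rw [← a3]; simp only [md_append, md]; abel
    · intro x hx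
      simp only [List.mem_append, List.mem_cons] at hx a4
      rcases hx with hx | hx | hx
      · exact a4 x (Or.inl hx)
      · subst hx; exact h2
      · exact a4 x (Or.inr hx)
  obtain ⟨X0, y1, y2, y3⟩ := prim (c := 0) (μ := m + 1) (hF.add (x1.hW D)) (sF.add hSp) hd hV0
  refine ⟨X0, -X1, y1, x1.neg, ?_, ?_⟩
  · rw [y3, hW_neg']; abel
  · rw [dW_neg', neg_neg, x3]

end Pool.Agent.H69.VS
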