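import Pool.Agent.H69.VS.Sym

/-!
Supports of functions on words.
-/

set_option linter.unusedSectionVars false

namespace Pool.Agent.H69.VS

open scoped BigOperators

variable {σ : Type} [Fintype σ] [DecidableEq σ]

/-- number of even letters -/
def nT : List (Lt σ) → ℕ
  | [] => 0
  | Lt.T _ :: w => nT w + 1
  | Lt.E _ :: w => nT w

/-- sum of the exponents -/
def md : List (Lt σ) → (σ → ℕ)
  | [] => 0
  | Lt.T y :: w => y + md w
  | Lt.E e :: w => e + md w

/-- letters of the right degree -/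
def okL (D : ℕ) : Lt σ → Prop
  | Lt.T y => dg y + 1 = D
  | Lt.E e => dg e = D

theorem nT_append (u v : List (Lt σ)) : nT (u ++ v) = nT u + nT v := by
  induction u with
  | nil => simp [nT]
  | cons x u ih => cases x <;> simp [nT, ih] <;> omega

theorem md_append (u v : List (Lt σ)) : md (u ++ v) = md u + md v := by
  induction u with
  | nil => simp [md]
  | cons x u ih => cases x <;> simp [md, ih, add_assoc]

/-- `F` is supported on words with `t - s` letters, `m - c` even letters, total weight `α`,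
all letters of the right degree -/
def Sp (D s c t m : ℕ) (α : σ → ℕ) (F : Fn σ) : Prop :=
  ∀ w f, F w f ≠ 0 → w.length + s = t ∧ nT w + c = m ∧ md w + f = α ∧ ∀ x ∈ w, okL D x

section ne
variable (D : ℕ) (i k : σ)

theorem dW_ne : ∀ (w : List (Lt σ)) (F : Fn σ) (f : σ → ℕ), dW D F w f ≠ 0 →
    ∃ u e v, w = u ++ Lt.E e :: v ∧ dg e = D ∧ F (u ++ v) (f + e) ≠ 0
  | [], F, f, h => absurd (dW_nil D F f) h
  | Lt.T y :: w, F, f, h => by
    obtain ⟨u, e, v, h1, h2, h3⟩ := dW_ne w (Af (Lt.T y) F) f (by simpa only [dW] using h)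
    exact ⟨Lt.T y :: u, e, v, by rw [h1]; rfl, h2, h3⟩
  | Lt.E e :: w, F, f, h => by
    by_cases h0 : (if dg e = D then F w (f + e) else 0) = 0
    · obtain ⟨u, e', v, h1, h2, h3⟩ := dW_ne w (Af (Lt.E e) F) f (by
        intro h4; apply h; simp only [dW]; rw [h4, h0]; simp)
      exact ⟨Lt.E e :: u, e', v, by rw [h1]; rfl, h2, h3⟩
    · by_cases h1 : dg e = D
      · rw [if_pos h1] at h0
        exact ⟨[], e, w, rfl, h1, h0⟩
      · rw [if_neg h1] at h0; exact absurd rfl h0

theorem hW_ne : ∀ (w : List (Lt σ)) (F : Fn σ) (f : σ → ℕ), hW D F w f ≠ 0 →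
    ∃ u y v, w = u ++ Lt.T y :: v ∧ dg y + 1 = D ∧ F (u ++ v) (f + y) ≠ 0
  | [], F, f, h => absurd (hW_nil D F f) h
  | Lt.E y :: w, F, f, h => by
    obtain ⟨u, e, v, h1, h2, h3⟩ := hW_ne w (Af (Lt.E y) F) f (by simpa only [hW] using h)
    exact ⟨Lt.E y :: u, e, v, by rw [h1]; rfl, h2, h3⟩
  | Lt.T e :: w, F, f, h => by
    by_cases h0 : (if dg e + 1 = D then F w (f + e) else 0) = 0
    · obtain ⟨u, e', v, h1, h2, h3⟩ := hW_ne w (Af (Lt.T e) F) f (by
        intro h4; apply h; simp only [hW]; rw [h4, h0]; simp)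
      exact ⟨Lt.T e :: u, e', v, by rw [h1]; rfl, h2, h3⟩
    · by_cases h1 : dg e + 1 = D
      · rw [if_pos h1] at h0
        exact ⟨[], e, w, rfl, h1, h0⟩
      · rw [if_neg h1] at h0; exact absurd rfl h0

theorem pW_ne : ∀ (w : List (Lt σ)) (F : Fn σ) (f : σ → ℕ), pW i F w f ≠ 0 →
    ∃ u y v, w = u ++ Lt.T y :: v ∧ F (u ++ Lt.E (y + ep i) :: v) f ≠ 0
  | [], F, f, h => absurd (pW_nil i F f) h
  | Lt.E e :: w, F, f, h => by
    obtain ⟨u, y, v, h1, h3⟩ := pW_ne w (Af (Lt.E e) F) f (by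
      intro h4; apply h; simp only [pW]; rw [h4]; simp)
    exact ⟨Lt.E e :: u, y, v, by rw [h1]; rfl, h3⟩
  | Lt.T y :: w, F, f, h => by
    by_cases h0 : F (Lt.E (y + ep i) :: w) f = 0
    · obtain ⟨u, y', v, h1, h3⟩ := pW_ne w (Af (Lt.T y) F) f (by
        intro h4; apply h; simp only [pW]; rw [h4, h0]; simp)
      exact ⟨Lt.T y :: u, y', v, by rw [h1]; rfl, h3⟩
    · exact ⟨[], y, w, rfl, h0⟩

theorem qW_ne : ∀ (w : List (Lt σ)) (F : Fn σ) (f : σ → ℕ), qW k F w f ≠ 0 →
    ∃ u e v, w = u ++ Lt.E e :: v ∧ e k ≠ 0 ∧ F (u ++ Lt.T (e - ep k) :: v) f ≠ 0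
  | [], F, f, h => absurd (qW_nil k F f) h
  | Lt.T e :: w, F, f, h => by
    obtain ⟨u, y, v, h1, h2, h3⟩ := qW_ne w (Af (Lt.T e) F) f (by
      intro h4; apply h; simp only [qW]; rw [h4])
    exact ⟨Lt.T e :: u, y, v, by rw [h1]; rfl, h2, h3⟩
  | Lt.E e :: w, F, f, h => by
    by_cases h0 : (e k : ℂ) * F (Lt.T (e - ep k) :: w) f = 0
    · obtain ⟨u, y', v, h1, h2, h3⟩ := qW_ne w (Af (Lt.E e) F) f (by
        intro h4; apply h; simp only [qW]; rw [h4, h0]; simp)
      exact ⟨Lt.E e :: u, y', v, by rw [h1]; rfl, h2, h3⟩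
    · refine ⟨[], e, w, rfl, ?_, ?_⟩
      · intro h5; apply h0; rw [h5]; simp
      · intro h5; apply h0; simp only [List.nil_append] at h5; rw [h5]; simp

end ne

section cl
variable {D s c t m : ℕ} {α : σ → ℕ} {F G : Fn σ} (i k : σ)

theorem Sp.add (h : Sp D s c t m α F) (h' : Sp D s c t m α G) : Sp D s c t m α (F + G) := by
  intro w f hne
  by_cases h0 : F w f = 0
  · apply h' w f
    intro h1; apply hne; simp [h0, h1]
  · exact h w f h0

theorem Sp.smul (h : Sp D s c t m α F) (a : ℂ) : Sp D s c t m α (a • F) := by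
  intro w f hne
  apply h w f
  intro h1; apply hne; simp [h1]

theorem Sp.neg (h : Sp D s c t m α F) : Sp D s c t m α (-F) := by
  have := h.smul (-1)
  rwa [neg_one_smul] at this

theorem Sp.sub (h : Sp D s c t m α F) (h' : Sp D s c t m α G) : Sp D s c t m α (F - G) := by
  rw [sub_eq_add_neg]; exact h.add h'.neg

theorem Sp.zero : Sp D s c t m α (0 : Fn σ) := fun w f h => absurd rfl h

theorem Sp.dW (h : Sp D s c t m α F) : Sp D s c (t + 1) m α (dW D F) := by
  intro w f hne
  obtain ⟨u, e, v, rfl, h2, h3⟩ := dW_ne D w F f hne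
  obtain ⟨a1, a2, a3, a4⟩ := h _ _ h3
  refine ⟨?_, ?_, ?_, ?_⟩
  · simp only [List.length_append, List.length_cons] at a1 ⊢; omega
  · simp only [nT_append, nT] at a2 ⊢; omega
  · rw [← a3]; simp only [md_append, md]; abel
  · intro x hx
    simp only [List.mem_append, List.mem_cons] at hx a4
    rcases hx with hx | hx | hx
    · exact a4 x (Or.inl hx)
    · subst hx; exact h2
    · exact a4 x (Or.inr hx)

theorem Sp.hW (h : Sp D s (c + 1) t m α F) : Sp D s c (t + 1) m α (hW D F) := by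
  intro w f hne
  obtain ⟨u, e, v, rfl, h2, h3⟩ := hW_ne D w F f hne
  obtain ⟨a1, a2, a3, a4⟩ := h _ _ h3
  refine ⟨?_, ?_, ?_, ?_⟩
  · simp only [List.length_append, List.length_cons] at a1 ⊢; omega
  · simp only [nT_append, nT] at a2 ⊢; omega
  · rw [← a3]; simp only [md_append, md]; abel
  · intro x hx
    simp only [List.mem_append, List.mem_cons] at hx a4
    rcases hx with hx | hx | hx
    · exact a4 x (Or.inl hx)
    · subst hx; exact h2
    · exact a4 x (Or.inr hx)

theorem Sp.pW (h : Sp D s c t m (α + ep i) F) : Sp D s c t (m + 1) α (pW i F) := by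
  intro w f hne
  obtain ⟨u, y, v, rfl, h3⟩ := pW_ne i w F f hne
  obtain ⟨a1, a2, a3, a4⟩ := h _ _ h3
  refine ⟨?_, ?_, ?_, ?_⟩
  · simp only [List.length_append, List.length_cons] at a1 ⊢; omega
  · simp only [nT_append, nT] at a2 ⊢; omega
  · have : md (u ++ Lt.T y :: v) + f + ep i = α + ep i := by
      rw [← a3]; simp only [md_append, md]; abel
    exact add_right_cancel this
  · intro x hx
    simp only [List.mem_append, List.mem_cons] at hx a4
    rcases hx with hx | hx | hx
    · exact a4 x (Or.inl hx)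
    · subst hx
      have := a4 _ (Or.inr (Or.inl rfl))
      simp only [okL, dg_add, dg_ep] at this ⊢
      exact this
    · exact a4 x (Or.inr (Or.inr hx))

theorem sub_ep_add {e : σ → ℕ} {k : σ} (h : e k ≠ 0) : e - ep k + ep k = e := by
  funext z
  by_cases hz : z = k
  · subst hz; simp [ep]; omega
  · simp [ep, hz]

theorem Sp.qW (h : Sp D s c t (m + 1) α F) : Sp D s c t m (α + ep k) (qW k F) := by
  intro w f hne
  obtain ⟨u, e, v, rfl, h2, h3⟩ := qW_ne k w F f hne
  obtain ⟨a1, a2, a3, a4⟩ := h _ _ h3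
  refine ⟨?_, ?_, ?_, ?_⟩
  · simp only [List.length_append, List.length_cons] at a1 ⊢; omega
  · simp only [nT_append, nT] at a2 ⊢; omega
  · rw [← a3]; simp only [md_append, md]
    calc md u + (e + md v) + f = md u + ((e - ep k + ep k) + md v) + f := by rw [sub_ep_add h2]
      _ = md u + (e - ep k + md v) + f + ep k := by
        generalize e - ep k = e'
        abel
  · intro x hx
    simp only [List.mem_append, List.mem_cons] at hx a4
    rcases hx with hx | hx | hx
    · exact a4 x (Or.inl hx)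
    · subst hx
      have := a4 _ (Or.inr (Or.inl rfl))
      simp only [okL] at this ⊢
      rw [← dg_sub e k h2]; exact this
    · exact a4 x (Or.inr (Or.inr hx))

theorem Sp.qW_zero (h : Sp D s 0 t 0 α F) : VS.qW k F = 0 := by
  funext w f
  by_contra hne
  obtain ⟨u, e, v, rfl, h2, h3⟩ := qW_ne k w F f hne
  obtain ⟨a1, a2, a3, a4⟩ := h _ _ h3
  simp only [nT_append, nT] at a2
  omega

theorem Sp.sgG (h : Sp D s c t m (α + ep i) F) : Sp D s (c + 1) t (m + 1) α (sg (ep i) F) := by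
  intro w f hne
  obtain ⟨a1, a2, a3, a4⟩ := h _ _ hne
  refine ⟨a1, by omega, ?_, a4⟩
  have : md w + f + ep i = α + ep i := by rw [← a3]; abel
  exact add_right_cancel this

theorem Sp.taG (h : Sp D s (c + 1) t (m + 1) α F) : Sp D s c t m (α + ep k) (ta k F) := by
  intro w f hne
  have hf : f k ≠ 0 := by
    intro h0; apply hne; simp [ta, h0]
  have hF : F w (f - ep k) ≠ 0 := by
    intro h0; apply hne; simp [ta, h0]
  obtain ⟨a1, a2, a3, a4⟩ := h _ _ hF
  refine ⟨a1, by omega, ?_, a4⟩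
  rw [← a3]
  calc md w + f = md w + (f - ep k + ep k) := by rw [sub_ep_add hf]
    _ = md w + (f - ep k) + ep k := by
      generalize f - ep k = e'
      abel

end cl

end Pool.Agent.H69.VS
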