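import Pool.Agent.H69.VS.Rel

/-!
More relations, super symmetric functions, supports.
-/

set_option linter.unusedSectionVars false

namespace Pool.Agent.H69.VS

open scoped BigOperators

variable {σ : Type} [Fintype σ] [DecidableEq σ]

section rel2
variable (D : ℕ) (i j k l : σ) (F G : Fn σ)

theorem rW_pW (hi : i ≠ k) (hl : l ≠ k) : rW k i (pW l F) = pW l (rW k i F) := by
  rw [← sub_eq_zero]
  refine rec_zero (fun F => rW k i (pW l F) - pW l (rW k i F)) (by simp) ?_ F
  intro F x
  cases x with
  | T y =>
    refine ⟨1, ?_⟩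
    have h1 : (y + ep i) k = y k := by simp [ep, Pi.single_apply, hi.symm]
    have h2 : (y + ep l) k = y k := by simp [ep, Pi.single_apply, hl.symm]
    have h3 : ((y k : ℕ) : ℂ) • Af (Lt.E (y + ep i - ep k + ep l)) F =
        ((y k : ℕ) : ℂ) • Af (Lt.E (y + ep l - ep k + ep i)) F := by
      by_cases hy : y k = 0
      · simp [hy]
      · congr 3
        funext z
        simp only [Pi.add_apply, Pi.sub_apply, ep, Pi.single_apply]
        split_ifs <;> subst_vars <;> first | omega | contradiction
    simp only [Af_sub, AT_rW, AT_pW, AE_rW, rW_add', rW_neg', pW_add', pW_smul', h1, h2, smul_add,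
      smul_neg, h3]
    module
  | E e =>
    refine ⟨-1, ?_⟩
    simp only [Af_sub, AE_rW, AE_pW, rW_neg', pW_add', pW_smul']
    module

/-- exponent of `x_k` in the letters, an even letter counts one more -/
def nk (k : σ) : List (Lt σ) → ℕ
  | [] => 0
  | Lt.T y :: w => y k + 1 + nk k w
  | Lt.E e :: w => e k + nk k w

theorem rW_self (w : List (Lt σ)) (f : σ → ℕ) : rW k k F w f = (nk k w : ℂ) * F w f := by
  induction w generalizing F f with
  | nil => simp [nk]
  | cons x w ih =>
    cases x with
    | T y =>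
      simp only [rW, nk, ih, Af]
      have h1 : (y + ep k) k = y k + 1 := by simp [ep]
      have h2 : y + ep k - ep k = y := by funext z; simp
      rw [h1, h2]; push_cast; ring
    | E e =>
      simp only [rW, nk, ih, Af]
      by_cases he : e k = 0
      · simp [he]
      · have h2 : e - ep k + ep k = e := by
          funext z
          by_cases hz : z = k
          · subst hz; simp [ep]; omega
          · simp [ep, hz]
        rw [h2]; push_cast; ring

end rel2

/-- sign of the exchange of two letters -/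
noncomputable def sn : Lt σ → Lt σ → ℂ
  | Lt.E _, Lt.E _ => -1
  | _, _ => 1

/-- super symmetric functions -/
def SS (F : Fn σ) : Prop :=
  ∀ (u : List (Lt σ)) (x y : Lt σ) (v : List (Lt σ)) (f : σ → ℕ),
    F (u ++ x :: y :: v) f = sn x y * F (u ++ y :: x :: v) f

theorem SS.af {F : Fn σ} (h : SS F) (z : Lt σ) : SS (Af z F) := by
  intro u x y v f
  exact h (z :: u) x y v f

theorem SS.front {F : Fn σ} (h : SS F) (x y : Lt σ) : Af y (Af x F) = sn x y • Af x (Af y F) := by
  funext w f
  exact h [] x y w f

theorem SS.sg {F : Fn σ} (h : SS F) (g : σ → ℕ) : SS (sg g F) := fun u x y v f => h u x y v _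

theorem SS.ta {F : Fn σ} (h : SS F) (k : σ) : SS (ta k F) := by
  intro u x y v f
  simp only [VS.ta]
  rw [h u x y v]; ring

theorem SS.add {F G : Fn σ} (h : SS F) (h' : SS G) : SS (F + G) := by
  intro u x y v f
  simp only [Pi.add_apply]
  rw [h u x y v, h' u x y v]; ring

theorem SS.smul {F : Fn σ} (h : SS F) (c : ℂ) : SS (c • F) := by
  intro u x y v f
  simp only [Pi.smul_apply, smul_eq_mul]
  rw [h u x y v]; ring

theorem SS.neg {F : Fn σ} (h : SS F) : SS (-F) := by
  have := h.smul (-1)
  rwa [neg_one_smul] at this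

theorem SS.sub {F G : Fn σ} (h : SS F) (h' : SS G) : SS (F - G) := by
  rw [sub_eq_add_neg]; exact h.add h'.neg

theorem SS.zero : SS (0 : Fn σ) := by intro u x y v f; simp

theorem SS_of (X : Fn σ → Fn σ)
    (hf : ∀ F, SS F → ∀ x y, Af y (Af x (X F)) = sn x y • Af x (Af y (X F)))
    (hr : ∀ F z, SS F → ∃ (c : ℂ) (H : Fn σ), SS H ∧ Af z (X F) = H + c • X (Af z F))
    {F : Fn σ} (h : SS F) : SS (X F) := by
  intro u
  induction u generalizing F with
  | nil =>
    intro x y v f
    have := congrFun (congrFun (hf F h x y) v) f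
    exact this
  | cons z u ih =>
    intro x y v f
    obtain ⟨c, H, hH, he⟩ := hr F z h
    have e1 : X F (z :: u ++ x :: y :: v) f = (H + c • X (Af z F)) (u ++ x :: y :: v) f := by
      rw [← he]; rfl
    have e2 : X F (z :: u ++ y :: x :: v) f = (H + c • X (Af z F)) (u ++ y :: x :: v) f := by
      rw [← he]; rfl
    rw [e1, e2]
    simp only [Pi.add_apply, Pi.smul_apply, smul_eq_mul]
    rw [hH u x y v, ih (h.af z) x y v f]
    ring

theorem SS.dW {F : Fn σ} (h : SS F) (D : ℕ) : SS (dW D F) := by
  refine SS_of (VS.dW D) ?_ ?_ h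
  · intro F h x y
    have hfr := h.front x y
    have hfr2 := congrArg (VS.dW D) hfr
    rw [dW_smul'] at hfr2
    cases x <;> cases y <;> simp only [sn, one_smul] at hfr hfr2 ⊢ <;>
      simp only [AE_dW, AT_dW, Af_sub, Af_smul, Af_sg, dW_sub', dW_smul', hfr2] <;> module
  · intro F z h
    cases z with
    | T y => exact ⟨1, 0, SS.zero, by rw [AT_dW]; module⟩
    | E e => exact ⟨-1, cE D e • VS.sg e F, (h.sg e).smul _, by rw [AE_dW]; module⟩

theorem SS.hW {F : Fn σ} (h : SS F) (D : ℕ) : SS (hW D F) := by
  refine SS_of (VS.hW D) ?_ ?_ h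
  · intro F h x y
    have hfr := h.front x y
    have hfr2 := congrArg (VS.hW D) hfr
    rw [hW_smul'] at hfr2
    cases x <;> cases y <;> simp only [sn, one_smul] at hfr hfr2 ⊢ <;>
      simp only [AE_hW, AT_hW, Af_add, Af_smul, Af_sg, hW_add', hW_smul', hfr2] <;> module
  · intro F z h
    cases z with
    | E y => exact ⟨1, 0, SS.zero, by rw [AE_hW]; module⟩
    | T e => exact ⟨1, cT D e • VS.sg e F, (h.sg e).smul _, by rw [AT_hW]; module⟩

theorem SS.pW {F : Fn σ} (h : SS F) (i : σ) : SS (pW i F) := by
  refine SS_of (VS.pW i) ?_ ?_ h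
  · intro F h x y
    have hfr2 := congrArg (VS.pW i) (h.front x y)
    rw [pW_smul'] at hfr2
    cases x with
    | T x =>
      cases y with
      | T y =>
        have h1 := h.front (Lt.E (x + ep i)) (Lt.T y)
        have h2 := h.front (Lt.E (y + ep i)) (Lt.T x)
        simp only [sn, one_smul] at hfr2 h1 h2 ⊢
        simp only [AT_pW, Af_add, Af_neg, pW_add', pW_neg', hfr2, h1, h2]
        module
      | E y =>
        have h1 := h.front (Lt.E (x + ep i)) (Lt.E y)
        simp only [sn, one_smul] at hfr2 h1 ⊢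
        simp only [AT_pW, AE_pW, Af_add, Af_neg, pW_add', pW_neg', hfr2, h1]
        module
    | E x =>
      cases y with
      | T y =>
        have h1 := h.front (Lt.E (y + ep i)) (Lt.E x)
        simp only [sn, one_smul] at hfr2 h1 ⊢
        simp only [AT_pW, AE_pW, Af_add, Af_neg, pW_add', pW_neg', hfr2, h1]
        module
      | E y =>
        simp only [sn] at hfr2 ⊢
        simp only [AE_pW, Af_add, Af_neg, pW_add', pW_neg', hfr2]
        module
  · intro F z h
    cases z with
    | E y => exact ⟨-1, 0, SS.zero, by rw [AE_pW]; module⟩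
    | T e => exact ⟨1, - Af (Lt.E (e + ep i)) F, (h.af _).neg, by rw [AT_pW]; module⟩

theorem SS.qW {F : Fn σ} (h : SS F) (k : σ) : SS (qW k F) := by
  refine SS_of (VS.qW k) ?_ ?_ h
  · intro F h x y
    have hfr2 := congrArg (VS.qW k) (h.front x y)
    rw [qW_smul'] at hfr2
    cases x with
    | T x =>
      cases y with
      | T y =>
        simp only [sn, one_smul] at hfr2 ⊢
        simp only [AT_qW, hfr2]
      | E y =>
        have h1 := h.front (Lt.T (y - ep k)) (Lt.T x)
        simp only [sn, one_smul] at hfr2 h1 ⊢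
        simp only [AT_qW, AE_qW, Af_sub, Af_neg, Af_smul, qW_sub', qW_neg', hfr2, h1]
    | E x =>
      cases y with
      | T y =>
        have h1 := h.front (Lt.T (x - ep k)) (Lt.T y)
        simp only [sn, one_smul] at hfr2 h1 ⊢
        simp only [AT_qW, AE_qW, Af_sub, Af_neg, Af_smul, qW_sub', qW_neg', hfr2, h1]
      | E y =>
        have h1 := h.front (Lt.T (x - ep k)) (Lt.E y)
        have h2 := h.front (Lt.T (y - ep k)) (Lt.E x)
        simp only [sn, one_smul] at hfr2 h1 h2 ⊢
        simp only [AE_qW, Af_sub, Af_neg, Af_smul, qW_sub', qW_neg', qW_smul', hfr2, h1, h2]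
        module
  · intro F z h
    cases z with
    | T y => exact ⟨1, 0, SS.zero, by rw [AT_qW]; module⟩
    | E e => exact ⟨-1, - ((e k : ℂ) • Af (Lt.T (e - ep k)) F), ((h.af _).smul _).neg,
        by rw [AE_qW]; module⟩

end Pool.Agent.H69.VS
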